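import Pool.Agent.H724.WE.SFStm

/-! # WE-9: the chain bound (AB10b) -/

namespace H724.WE

open Finset
open scoped Classical

namespace SF

variable {V ι : Type} (G : SF V ι)

theorem Nx_symm {d f : Dart ι} (h : G.Nx d f) : G.Nx (rev f) (rev d) := by
  obtain ⟨h1, h2, h3, h4, h5, h6⟩ := h
  refine ⟨G.core_rev.2 h2, G.core_rev.2 h1, ?_, ?_, ?_, ?_⟩
  · simp [h3]
  · intro h
    apply h4
    rw [rev_rev] at h
    exact h.symm
  · simpa [h3] using h5
  · intro g hg hg2 hg3
    have := h6 g hg (by simpa [h3] using hg2) hg3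
    rcases this with h | h
    · right; simp [h]
    · left; exact h

theorem Nx_det {d f f' : Dart ι} (h : G.Nx d f) (h' : G.Nx d f') : f = f' := by
  rcases h.2.2.2.2.2 f' h'.2.1.1 h'.2.2.1 h'.2.1.2.1 with h1 | h1
  · exact h1.symm
  · exact absurd h1 h'.2.2.2.1

theorem Nx_inj {d d' f : Dart ι} (h : G.Nx d f) (h' : G.Nx d' f) : d = d' := by
  have := G.Nx_det (G.Nx_symm h) (G.Nx_symm h')
  have h2 := congrArg rev this
  simpa using h2

theorem NxI_det : ∀ (h : ℕ) {d f f' : Dart ι}, G.NxI h d f → G.NxI h d f' → f = f'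
  | 0, d, f, f', h1, h2 => by
    have h1' : d = f := h1
    have h2' : d = f' := h2
    rw [← h1', h2']
  | h + 1, d, f, f', h1, h2 => by
    obtain ⟨g, hg1, hg2⟩ := h1
    obtain ⟨g', hg1', hg2'⟩ := h2
    have := NxI_det h hg1 hg1'
    subst this
    exact G.Nx_det hg2 hg2'

theorem NxI_cancel : ∀ (h g : ℕ) {D D' X : Dart ι}, G.NxI (g + h) D X → G.NxI h D' X →
    G.NxI g D D'
  | 0, g, D, D', X, h1, h2 => by
    have h2' : D' = X := h2
    subst h2'
    exact h1
  | h + 1, g, D, D', X, h1, h2 => by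
    obtain ⟨Y, hY1, hY2⟩ := h1
    obtain ⟨Y', hY1', hY2'⟩ := h2
    have := G.Nx_inj hY2 hY2'
    subst this
    exact NxI_cancel h g hY1 hY1'

theorem NxI_chain {d : ℕ → Dart ι} {m : ℕ} (hd : G.IsChain d m) (s : ℕ) :
    ∀ g, s + g ≤ m → G.NxI g (d s) (d (s + g))
  | 0, _ => rfl
  | g + 1, h => ⟨d (s + g), NxI_chain hd s g (by omega), hd (s + g) (by omega)⟩

theorem NxI_chain_rev {d : ℕ → Dart ι} {m : ℕ} (hd : G.IsChain d m) (t : ℕ) (ht : t ≤ m) :
    ∀ g, g ≤ t → G.NxI g (rev (d t)) (rev (d (t - g)))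
  | 0, _ => rfl
  | g + 1, h => by
    refine ⟨rev (d (t - g)), NxI_chain_rev hd t ht g (by omega), ?_⟩
    have h1 := hd (t - (g + 1)) (by omega)
    have h2 : t - (g + 1) + 1 = t - g := by omega
    rw [h2] at h1
    exact G.Nx_symm h1

theorem Nx_nest {e f : Dart ι} (h : G.Nx e f) : G.far f ⊆ G.far e ∧ G.hd e ∉ G.far f := by
  obtain ⟨h1, h2, h3, h4, h5, h6⟩ := h
  have hne : ed f ≠ ed e := by
    intro he
    rcases eq_or_eq_rev he.symm with h | h
    · subst h
      exact G.tl_not_mem_far h1.1 (h3 ▸ G.hd_mem_far f)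
    · exact h4 h
  have h7 : G.hd e ∉ G.far f := by
    rw [← h3]; exact G.tl_not_mem_far h2.1
  have h8 : G.tl f ∈ G.far e := by rw [h3]; exact G.hd_mem_far e
  exact ⟨(G.nest h1.1 h2.1 hne h8 h7).1, h7⟩

theorem chain_nest {d : ℕ → Dart ι} {m : ℕ} (hd : G.IsChain d m) (q : ℕ) :
    ∀ g, q + g + 1 ≤ m → G.far (d (q + g + 1)) ⊆ G.far (d q) ∧ G.hd (d q) ∉ G.far (d (q + g + 1))
  | 0, h => G.Nx_nest (hd q (by omega))
  | g + 1, h => by
    have ih := chain_nest hd q g (by omega)
    have h1 := G.Nx_nest (hd (q + g + 1) (by omega))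
    exact ⟨h1.1.trans ih.1, fun h2 => ih.2 (h1.1 h2)⟩

theorem chain_ed_ne {d : ℕ → Dart ι} {m : ℕ} (hd : G.IsChain d m) {q q' : ℕ} (h : q < q')
    (h' : q' ≤ m) : ed (d q) ≠ ed (d q') := by
  obtain ⟨g, rfl⟩ : ∃ g, q' = q + g + 1 := ⟨q' - q - 1, by omega⟩
  have h1 := G.chain_nest hd q g h'
  have hcore : G.core (d q) := (hd q (by omega)).1
  intro he
  rcases eq_or_eq_rev he with h2 | h2
  · rw [h2] at h1
    exact h1.2 (G.hd_mem_far _)
  · have h3 : G.hd (d (q + g + 1)) ∈ G.far (d q) := h1.1 (G.hd_mem_far _)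
    rw [h2, G.hd_rev] at h3
    exact G.tl_not_mem_far hcore.1 h3

theorem cid_mono [Fintype ι] (i : ι) {o o' : ℕ} (h : o ≤ o') : G.cid i o ≤ G.cid i o' := by
  unfold cid
  apply Finset.card_le_card
  intro e he
  simp only [Finset.mem_filter] at he ⊢
  exact ⟨he.1, he.2.1, by omega⟩

theorem cid_le [Fintype ι] (i : ι) (o : ℕ) : G.cid i o ≤ G.Brk.card :=
  Finset.card_le_card (Finset.filter_subset _ _)

/-- Key step for injectivity. -/
theorem key [Fintype ι] {d : ℕ → Dart ι} {m : ℕ} (hd : G.IsChain d m) {i : ι} {c : ℕ}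
    {X : Dart ι} {z1 h1 : ℕ} {σ1 : Bool} (hc1 : G.cid i z1 = c) (hX1 : G.NxI h1 (i, z1, σ1) X)
    {s2 t2 lo2 δ2 h2 k2 : ℕ} {σ2 : Bool} (hst : s2 < t2) (htm : t2 ≤ m)
    (hends : (d s2 = (i, lo2, σ2) ∧ d t2 = (i, lo2 + δ2, !σ2)) ∨
      (d s2 = (i, lo2 + δ2, σ2) ∧ d t2 = (i, lo2, !σ2)))
    (hk2 : k2 < δ2) (hX2 : G.NxI h2 (i, lo2 + k2, σ2) X) (hh2 : s2 + h2 < t2 - h2)
    (hfam : ∀ h' ≤ h2, ∃ β p τ, G.Fam h' i lo2 δ2 σ2 β p τ)
    (hclo : G.cid i lo2 = c) (hchi : G.cid i (lo2 + δ2) = c)
    (hcons : ∀ q, s2 < q → q < t2 → (d q).1 = i → G.cid i (d q).2.1 ≠ c)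
    (h12 : h1 ≤ h2) : z1 = lo2 + k2 := by
  obtain ⟨g, rfl⟩ : ∃ g, h2 = g + h1 := ⟨h2 - h1, by omega⟩
  have hD : G.NxI g (i, lo2 + k2, σ2) (i, z1, σ1) := G.NxI_cancel h1 g hX2 hX1
  rcases Nat.eq_zero_or_pos g with rfl | hg
  · have : ((i, lo2 + k2, σ2) : Dart ι) = (i, z1, σ1) := hD
    simp only [Prod.mk.injEq] at this
    exact this.2.1.symm
  · exfalso
    obtain ⟨β, p, τ, hF⟩ := hfam g (by omega)
    have hk := G.NxI_det g (hF k2 (by omega)) hD
    simp only [Prod.mk.injEq] at hk
    obtain ⟨rfl, hp, rfl⟩ := hk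
    -- ends of the family
    have e1 := G.NxI_chain hd s2 g (by omega)
    have e2 := G.NxI_chain_rev hd t2 htm g (by omega)
    have hF0 := hF 0 (by omega)
    have hFδ := hF δ2 le_rfl
    rw [Nat.add_zero, Nat.add_zero] at hF0
    have hlow : G.cid β p ≠ c := by
      rcases hends with ⟨ha, hb⟩ | ⟨ha, hb⟩
      · rw [ha] at e1
        have := G.NxI_det g e1 hF0
        have h3 := hcons (s2 + g) (by omega) (by omega)
        rw [this] at h3
        exact h3 rfl
      · rw [hb] at e2
        have h4 : (rev (β, lo2, !σ2) : Dart ι) = (β, lo2, σ2) := by simp [rev]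
        rw [h4] at e2
        have := G.NxI_det g e2 hF0
        have h3 := hcons (t2 - g) (by omega) (by omega)
        have h5 : d (t2 - g) = rev (β, p, τ) := by rw [← this, rev_rev]
        rw [h5] at h3
        exact h3 rfl
    have hhigh : G.cid β (p + δ2) ≠ c := by
      rcases hends with ⟨ha, hb⟩ | ⟨ha, hb⟩
      · rw [hb] at e2
        have h4 : (rev (β, lo2 + δ2, !σ2) : Dart ι) = (β, lo2 + δ2, σ2) := by simp [rev]
        rw [h4] at e2
        have := G.NxI_det g e2 hFδ
        have h3 := hcons (t2 - g) (by omega) (by omega)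
        have h5 : d (t2 - g) = rev (β, p + δ2, τ) := by rw [← this, rev_rev]
        rw [h5] at h3
        exact h3 rfl
      · rw [ha] at e1
        have := G.NxI_det g e1 hFδ
        have h3 := hcons (s2 + g) (by omega) (by omega)
        rw [this] at h3
        exact h3 rfl
    have m1 : G.cid β p ≤ G.cid β z1 := G.cid_mono β (by omega)
    have m2 : G.cid β z1 ≤ G.cid β (p + δ2) := G.cid_mono β (by omega)
    have l1 : p < lo2 := by
      by_contra hcon
      have := G.cid_mono β (show lo2 ≤ p by omega)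
      omega
    have l2 : lo2 + δ2 < p + δ2 := by
      by_contra hcon
      have := G.cid_mono β (show p + δ2 ≤ lo2 + δ2 by omega)
      omega
    omega

end SF

theorem vis_bound (hmono : S_mono) (hfb : S_firstBreak) {V ι : Type} [Fintype V] [Fintype ι]
    (G : SF V ι) (d : ℕ → Dart ι) (m : ℕ) (hd : G.IsChain d m)
    (hsame : ∀ q q' : ℕ, q < q' → q' ≤ m →
      (d q).1 = (d q').1 → (d q).2.2 = (d q').2.2 →
      G.cid (d q).1 (d q).2.1 = G.cid (d q').1 (d q').2.1 →
      ∃ q'', q < q'' ∧ q'' < q' ∧ (d q'').1 = (d q).1 ∧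
        min (d q).2.1 (d q').2.1 < (d q'').2.1 ∧ (d q'').2.1 < max (d q).2.1 (d q').2.1)
    (i : ι) (c : ℕ) :
    ((Finset.range (m + 1)).filter (fun q => (d q).1 = i ∧ G.cid i (d q).2.1 = c)).card ≤
      G.Bad.card + 1 := by
  set Vis := (Finset.range (m + 1)).filter (fun q => (d q).1 = i ∧ G.cid i (d q).2.1 = c) with hVis
  set w := Vis.card with hw
  have hmemV : ∀ q, q ∈ Vis ↔ q ≤ m ∧ (d q).1 = i ∧ G.cid i (d q).2.1 = c := by
    intro q
    simp only [hVis, Finset.mem_filter, Finset.mem_range]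
    constructor
    · rintro ⟨h1, h2⟩; exact ⟨by omega, h2⟩
    · rintro ⟨h1, h2⟩; exact ⟨by omega, h2⟩
  -- enumeration
  obtain ⟨qf, hq1, hq2, hq3⟩ : ∃ qf : ℕ → ℕ, (∀ j < w, qf j ∈ Vis) ∧
      (∀ j j', j < j' → j' < w → qf j < qf j') ∧
      (∀ j, j + 1 < w → ∀ q ∈ Vis, qf j < q → q < qf (j + 1) → False) := by
    let e := Vis.orderEmbOfFin hw.symm
    refine ⟨fun j => if h : j < w then e ⟨j, h⟩ else 0, ?_, ?_, ?_⟩
    · intro j hj
      simp only [hj, dite_true]
      exact Finset.orderEmbOfFin_mem Vis hw.symm ⟨j, hj⟩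
    · intro j j' hjj hj'
      have hj : j < w := by omega
      simp only [hj, hj', dite_true]
      exact e.strictMono (by simpa using hjj)
    · intro j hj q hq h1 h2
      have hj0 : j < w := by omega
      simp only [hj0, hj, dite_true] at h1 h2
      have hr : q ∈ Set.range e := by
        rw [Finset.range_orderEmbOfFin]; exact hq
      obtain ⟨⟨k, hk⟩, rfl⟩ := hr
      have h3 : j < k := by
        have := e.strictMono.lt_iff_lt.1 h1
        simpa using this
      have h4 : k < j + 1 := by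
        have := e.strictMono.lt_iff_lt.1 h2
        simpa using this
      omega
  let x : ℕ → ℕ := fun j => (d (qf j)).2.1
  let s : ℕ → Bool := fun j => (d (qf j)).2.2
  have hV : ∀ j < w, qf j ≤ m ∧ (d (qf j)).1 = i ∧ G.cid i (x j) = c := fun j hj =>
    (hmemV _).1 (hq1 j hj)
  have hdj : ∀ j < w, d (qf j) = (i, x j, s j) := by
    intro j hj
    have := (hV j hj).2.1
    rw [← this]
  have hxne : ∀ j j', j < j' → j' < w → x j ≠ x j' := by
    intro j j' hjj hj' hx
    refine G.chain_ed_ne hd (hq2 j j' hjj hj') (hV j' hj').1 ?_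
    rw [hdj j (by omega), hdj j' hj']
    simp [ed, hx]
  have hbt : ∀ z y1 y2, G.cid i y1 = c → G.cid i y2 = c → min y1 y2 ≤ z → z ≤ max y1 y2 →
      G.cid i z = c := by
    intro z y1 y2 h1 h2 h3 h4
    rcases le_total y1 y2 with h | h
    · rw [min_eq_left h] at h3
      rw [max_eq_right h] at h4
      have a1 := G.cid_mono i h3
      have a2 := G.cid_mono i h4
      omega
    · rw [min_eq_right h] at h3
      rw [max_eq_left h] at h4
      have a1 := G.cid_mono i h3
      have a2 := G.cid_mono i h4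
      omega
  obtain ⟨halt, hmon⟩ := hmono w x s hxne (by
    intro j j' hjj hj' hs
    obtain ⟨q'', h1, h2, h3, h4, h5⟩ := hsame (qf j) (qf j') (hq2 j j' hjj hj') (hV j' hj').1
      (by rw [(hV j (by omega)).2.1, (hV j' hj').2.1]) hs (by
        rw [(hV j (by omega)).2.1, (hV j' hj').2.1]
        exact (hV j (by omega)).2.2.trans (hV j' hj').2.2.symm)
    have hq'' : q'' ∈ Vis := by
      rw [hmemV]
      have hm' := (hV j' hj').1
      refine ⟨by omega, by rw [h3, (hV j (by omega)).2.1], ?_⟩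
      exact hbt _ _ _ (hV j (by omega)).2.2 (hV j' hj').2.2 h4.le h5.le
    have hr : q'' ∈ Set.range (Vis.orderEmbOfFin hw.symm) := by
      rw [Finset.range_orderEmbOfFin]; exact hq''
    -- find the index of q''
    have hidx : ∃ k < w, qf k = q'' := by
      by_contra hcon
      push Not at hcon
      -- largest k with qf k < q''
      have hj0 : qf j < q'' := h1
      have hall : ∀ k, j + k < w → qf (j + k) < q'' := by
        intro k
        induction k with
        | zero => intro _; exact h1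
        | succ k ih =>
          intro hk
          have h6 := ih (by omega)
          by_contra hge
          have hne := hcon (j + (k + 1)) hk
          have h7 : q'' < qf (j + (k + 1)) := by omega
          exact hq3 (j + k) (by omega) q'' hq'' h6 h7
      have := hall (j' - j) (by omega)
      rw [show j + (j' - j) = j' by omega] at this
      omega
    obtain ⟨k, hk, rfl⟩ := hidx
    refine ⟨k, ?_, ?_, h4, h5⟩
    · by_contra hcon
      rcases Nat.lt_or_ge k j with h | h
      · have := hq2 k j h (by omega); omega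
      · have : k = j := by omega
        subst this; omega
    · by_contra hcon
      rcases Nat.lt_or_ge j' k with h | h
      · have := hq2 j' k h hk; omega
      · have : k = j' := by omega
        subst this; omega)
  -- data for the consecutive pairs
  let lo : ℕ → ℕ := fun j => min (x j) (x (j + 1))
  let δ : ℕ → ℕ := fun j => max (x j) (x (j + 1)) - min (x j) (x (j + 1))
  have hδ : ∀ j, j + 1 < w → 0 < δ j := by
    intro j hj
    have := hxne j (j + 1) (by omega) hj
    simp only [δ]
    omega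
  have hends : ∀ j, j + 1 < w → (d (qf j) = (i, lo j, s j) ∧ d (qf (j + 1)) = (i, lo j + δ j, !(s j))) ∨
      (d (qf j) = (i, lo j + δ j, s j) ∧ d (qf (j + 1)) = (i, lo j, !(s j))) := by
    intro j hj
    have h1 := hdj j (by omega)
    have h2 := hdj (j + 1) hj
    rw [halt j hj] at h2
    rcases le_total (x j) (x (j + 1)) with h | h
    · left
      rw [h1, h2]
      have e1 : lo j = x j := min_eq_left h
      have e2 : lo j + δ j = x (j + 1) := by simp only [lo, δ]; omega
      rw [e1] at e2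
      rw [e1, e2]
      exact ⟨rfl, rfl⟩
    · right
      rw [h1, h2]
      have e1 : lo j = x (j + 1) := min_eq_right h
      have e2 : lo j + δ j = x j := by simp only [lo, δ]; omega
      rw [e1] at e2
      rw [e1, e2]
      exact ⟨rfl, rfl⟩
  have hclo : ∀ j, j + 1 < w → ∀ k ≤ δ j, G.cid i (lo j + k) = c := by
    intro j hj k hk
    refine hbt _ _ _ (hV j (by omega)).2.2 (hV (j + 1) hj).2.2 ?_ ?_
    · simp only [lo]; omega
    · simp only [lo, δ] at hk ⊢; omega
  have hdata : ∀ j, ∃ (h k : ℕ) (X : Dart ι), j + 1 < w → (X ∈ G.Bad ∧ k < δ j ∧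
      G.NxI h (i, lo j + k, s j) X ∧ qf j + h < qf (j + 1) - h ∧
      ∀ h' ≤ h, ∃ β p τ, G.Fam h' i (lo j) (δ j) (s j) β p τ) := by
    intro j
    by_cases hj : j + 1 < w
    · obtain ⟨h, hh1, hh2, β, p, τ, k, hF, hk, hB⟩ := hfb V ι G d m hd (qf j) (qf (j + 1)) i (lo j)
        (δ j) (s j) (hq2 j (j + 1) (by omega) hj) (hV (j + 1) hj).1 (hδ j hj) (hends j hj)
      exact ⟨h, k, (β, p + k, τ), fun _ => ⟨hB, hk, hF k hk.le, hh1, hh2⟩⟩
    · exact ⟨0, 0, d 0, fun h => absurd h hj⟩
  choose hh kk XX hXX using hdata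
  have hpair : ∀ j j', j + 1 < w → j' + 1 < w → XX j = XX j' → hh j ≤ hh j' →
      lo j + kk j = lo j' + kk j' := by
    intro j j' hj hj' hX hle
    obtain ⟨_, b1, c1, _, _⟩ := hXX j hj
    obtain ⟨_, b2, c2, d2, e2⟩ := hXX j' hj'
    rw [← hX] at c2
    exact G.key hd (hclo j hj _ b1.le) c1 (hq2 j' (j' + 1) (by omega) hj') (hV (j' + 1) hj').1
      (hends j' hj') b2 c2 d2 e2 (by have := hclo j' hj' 0 (Nat.zero_le _); simpa using this)
      (hclo j' hj' _ le_rfl) (by
        intro q hq1' hq2' hq3' hq4'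
        refine hq3 j' hj' q ?_ hq1' hq2'
        rw [hmemV]
        have hm' := (hV (j' + 1) hj').1
        exact ⟨by omega, hq3', hq4'⟩) hle
  have hdisj : ∀ j j', j < j' → j + 1 < w → j' + 1 < w → lo j + kk j = lo j' + kk j' → False := by
    intro j j' hjj hj hj' he
    have b1 := (hXX j hj).2.1
    have b2 := (hXX j' hj').2.1
    simp only [lo, δ] at b1 b2 he
    rcases hmon with hmon | hmon
    · have m1 := hmon j (j + 1) (by omega) hj
      have m2 := hmon j' (j' + 1) (by omega) hj'
      have m3 : x (j + 1) ≤ x j' := by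
        rcases Nat.lt_or_ge (j + 1) j' with h | h
        · exact (hmon _ _ h (by omega)).le
        · have : j' = j + 1 := by omega
          rw [this]
      omega
    · have m1 := hmon j (j + 1) (by omega) hj
      have m2 := hmon j' (j' + 1) (by omega) hj'
      have m3 : x j' ≤ x (j + 1) := by
        rcases Nat.lt_or_ge (j + 1) j' with h | h
        · exact (hmon _ _ h (by omega)).le
        · have : j' = j + 1 := by omega
          rw [this]
      omega
  have hcard : (Finset.range (w - 1)).card ≤ G.Bad.card := by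
    refine Finset.card_le_card_of_injOn XX ?_ ?_
    · intro j hj
      have hj' : j < w - 1 := by simpa using hj
      exact (hXX j (by omega)).1
    · intro j hj j' hj' hX
      have hj1 : j < w - 1 := by simpa using hj
      have hj2 : j' < w - 1 := by simpa using hj'
      have heq : lo j + kk j = lo j' + kk j' := by
        rcases le_total (hh j) (hh j') with h | h
        · exact hpair j j' (by omega) (by omega) hX h
        · exact (hpair j' j (by omega) (by omega) hX.symm h).symm
      by_contra hne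
      rcases Nat.lt_or_gt_of_ne hne with h | h
      · exact hdisj j j' h (by omega) (by omega) heq
      · exact hdisj j' j h (by omega) (by omega) heq.symm
  rw [Finset.card_range] at hcard
  omega

theorem chainBound : S_chainBound := by
  intro hmono hfb V ι _ _ G d m hd hsame
  -- map q ↦ (band, cell number)
  let f : ℕ → ι × ℕ := fun q => ((d q).1, G.cid (d q).1 (d q).2.1)
  have h1 : ∀ b ∈ (Finset.range (m + 1)).image f,
      ((Finset.range (m + 1)).filter (fun q => f q = b)).card ≤ G.Bad.card + 1 := by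
    intro b _
    refine le_trans (Finset.card_le_card ?_) (vis_bound hmono hfb G d m hd hsame b.1 b.2)
    intro q hq
    simp only [Finset.mem_filter] at hq ⊢
    obtain ⟨h1, h2⟩ := hq
    refine ⟨h1, ?_, ?_⟩
    · exact congrArg Prod.fst h2
    · have h3 := congrArg Prod.fst h2
      have h4 := congrArg Prod.snd h2
      simp only [f] at h3 h4
      rw [h3] at h4
      exact h4
  have h2 := Finset.card_le_mul_card_image (Finset.range (m + 1)) (G.Bad.card + 1) h1
  rw [Finset.card_range] at h2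
  have h3 : ((Finset.range (m + 1)).image f).card ≤ Fintype.card ι * (G.Brk.card + 1) := by
    have : (Finset.range (m + 1)).image f ⊆ (univ : Finset ι) ×ˢ Finset.range (G.Brk.card + 1) := by
      intro b hb
      obtain ⟨q, _, rfl⟩ := Finset.mem_image.1 hb
      simp only [f, Finset.mem_product, Finset.mem_univ, true_and, Finset.mem_range]
      have := G.cid_le (d q).1 (d q).2.1
      omega
    refine (Finset.card_le_card this).trans ?_
    rw [Finset.card_product, Finset.card_univ, Finset.card_range]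
  calc m + 1 ≤ (G.Bad.card + 1) * ((Finset.range (m + 1)).image f).card := h2
    _ ≤ (G.Bad.card + 1) * (Fintype.card ι * (G.Brk.card + 1)) := Nat.mul_le_mul_left _ h3
    _ = Fintype.card ι * (G.Brk.card + 1) * (G.Bad.card + 1) := by ring

end H724.WE
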