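import Mathlib

/-!
# Project WE (helper724): MP_fd2cd0_lc, infinitely many solutions and the exponent of periodicity

Layer 0: connectivity by a set of edges `S : Set ε`, with endpoint maps `src dst : ε → V`.
-/

namespace H724.WE

/-- Connectivity of vertices by edges in `S`. -/
def Conn {V ε : Type*} (src dst : ε → V) (S : Set ε) : V → V → Prop :=
  Relation.EqvGen (fun x y => ∃ e ∈ S, x = src e ∧ y = dst e)

namespace Conn

variable {V ε : Type*} {src dst : ε → V} {S T : Set ε} {x y z : V}

theorem refl (x : V) : Conn src dst S x x := Relation.EqvGen.refl x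

theorem symm (h : Conn src dst S x y) : Conn src dst S y x := Relation.EqvGen.symm _ _ h

theorem trans (h : Conn src dst S x y) (h' : Conn src dst S y z) : Conn src dst S x z :=
  Relation.EqvGen.trans _ _ _ h h'

theorem edge {e : ε} (he : e ∈ S) : Conn src dst S (src e) (dst e) :=
  Relation.EqvGen.rel _ _ ⟨e, he, rfl, rfl⟩

theorem edge' {e : ε} (he : e ∈ S) : Conn src dst S (dst e) (src e) := (edge he).symm

/-- Induction principle: a set of vertices containing `x` and closed (in both directions) under the
edges of `S` contains everything connected to `x`. -/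
theorem mem_of_closed {C : Set V} (hx : x ∈ C)
    (hC : ∀ e ∈ S, (src e ∈ C ↔ dst e ∈ C)) (h : Conn src dst S x y) : y ∈ C := by
  have key : ∀ a b, Conn src dst S a b → (a ∈ C ↔ b ∈ C) := by
    intro a b hab
    induction hab with
    | rel a b h =>
      obtain ⟨e, he, rfl, rfl⟩ := h
      exact hC e he
    | refl a => exact Iff.rfl
    | symm a b _ ih => exact ih.symm
    | trans a b c _ _ ih1 ih2 => exact ih1.trans ih2
  exact (key x y h).1 hx

theorem mono (hST : S ⊆ T) (h : Conn src dst S x y) : Conn src dst T x y := by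
  induction h with
  | rel a b h =>
    obtain ⟨e, he, rfl, rfl⟩ := h
    exact edge (hST he)
  | refl a => exact refl a
  | symm a b _ ih => exact ih.symm
  | trans a b c _ _ ih1 ih2 => exact ih1.trans ih2

/-- If every edge of `S` is realised by `T`-connectivity, then `S`-connectivity implies
`T`-connectivity (edge sets on possibly different index types). -/
theorem of_edges {ε' : Type*} {src' dst' : ε' → V} {T : Set ε'}
    (h : ∀ e ∈ S, Conn src' dst' T (src e) (dst e)) (hxy : Conn src dst S x y) :
    Conn src' dst' T x y := by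
  induction hxy with
  | rel a b h' =>
    obtain ⟨e, he, rfl, rfl⟩ := h'
    exact h e he
  | refl a => exact refl a
  | symm a b _ ih => exact ih.symm
  | trans a b c _ _ ih1 ih2 => exact ih1.trans ih2

/-- Transport along a map of vertices. -/
theorem map {V' ε' : Type*} {src' dst' : ε' → V'} {T : Set ε'} (f : V → V')
    (h : ∀ e ∈ S, Conn src' dst' T (f (src e)) (f (dst e))) (hxy : Conn src dst S x y) :
    Conn src' dst' T (f x) (f y) := by
  induction hxy with
  | rel a b h' =>
    obtain ⟨e, he, rfl, rfl⟩ := h'
    exact h e he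
  | refl a => exact refl _
  | symm a b _ ih => exact ih.symm
  | trans a b c _ _ ih1 ih2 => exact ih1.trans ih2

/-- Restriction to the edges in the class of `x`: if `x ~ y` by `S`, then `x ~ y` by those edges
of `S` whose source is connected to `x`. -/
theorem restrict (h : Conn src dst S x y) :
    Conn src dst {e | e ∈ S ∧ Conn src dst S x (src e)} x y := by
  have : y ∈ {z | Conn src dst S x z ∧ Conn src dst {e | e ∈ S ∧ Conn src dst S x (src e)} x z} := by
    refine mem_of_closed (S := S) ⟨refl x, refl x⟩ ?_ h
    intro e he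
    constructor
    · rintro ⟨h1, h2⟩
      exact ⟨h1.trans (edge he), h2.trans (edge ⟨he, h1⟩)⟩
    · rintro ⟨h1, h2⟩
      have h3 : Conn src dst S x (src e) := h1.trans (edge' he)
      exact ⟨h3, h2.trans (edge' ⟨he, h3⟩)⟩
  exact this.2

/-- Adding one edge. -/
theorem insert_iff {f : ε} : Conn src dst (insert f S) x y ↔
    Conn src dst S x y ∨ (Conn src dst S x (src f) ∧ Conn src dst S (dst f) y) ∨
      (Conn src dst S x (dst f) ∧ Conn src dst S (src f) y) := by
  constructor
  · intro h
    have : y ∈ {z | Conn src dst S x z ∨ (Conn src dst S x (src f) ∧ Conn src dst S (dst f) z) ∨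
      (Conn src dst S x (dst f) ∧ Conn src dst S (src f) z)} := by
      refine mem_of_closed (S := insert f S) (Or.inl (refl x)) ?_ h
      intro e he
      rcases he with rfl | he
      · constructor
        · rintro (h1 | ⟨h1, h2⟩ | ⟨h1, h2⟩)
          · exact Or.inr (Or.inl ⟨h1, refl _⟩)
          · exact Or.inr (Or.inl ⟨h1, refl _⟩)
          · exact Or.inl h1
        · rintro (h1 | ⟨h1, h2⟩ | ⟨h1, h2⟩)
          · exact Or.inr (Or.inr ⟨h1, refl _⟩)
          · exact Or.inl h1
          · exact Or.inr (Or.inr ⟨h1, refl _⟩)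
      · constructor
        · rintro (h1 | ⟨h1, h2⟩ | ⟨h1, h2⟩)
          · exact Or.inl (h1.trans (edge he))
          · exact Or.inr (Or.inl ⟨h1, h2.trans (edge he)⟩)
          · exact Or.inr (Or.inr ⟨h1, h2.trans (edge he)⟩)
        · rintro (h1 | ⟨h1, h2⟩ | ⟨h1, h2⟩)
          · exact Or.inl (h1.trans (edge' he))
          · exact Or.inr (Or.inl ⟨h1, h2.trans (edge' he)⟩)
          · exact Or.inr (Or.inr ⟨h1, h2.trans (edge' he)⟩)
    exact this
  · have hS : S ⊆ insert f S := Set.subset_insert f S
    have hf : f ∈ insert f S := Set.mem_insert f S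
    rintro (h1 | ⟨h1, h2⟩ | ⟨h1, h2⟩)
    · exact h1.mono hS
    · exact ((h1.mono hS).trans (edge hf)).trans (h2.mono hS)
    · exact ((h1.mono hS).trans (edge' hf)).trans (h2.mono hS)

end Conn

end H724.WE
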