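import Pool.Agent.H724.WE.WStm

/-!
# Project WE (helper724), layer 3: word equations
-/

namespace H724.WE

open Finset
open scoped Classical

/-- Apply a substitution to a word over constants `A` and variables `Ω`. -/
def subst {A Ω : Type} (σ : Ω → List A) (U : List (A ⊕ Ω)) : List A :=
  U.flatMap (fun s => Sum.elim (fun a => [a]) σ s)

/-- `σ` is a solution of `U = V` in the free semigroup `A⁺`. -/
def IsSol {A Ω : Type} (U V : List (A ⊕ Ω)) (σ : Ω → List A) : Prop :=
  (∀ X, σ X ≠ []) ∧ subst σ U = subst σ V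

/-- the variable `X` occurs in the equation `U = V` -/
def Occ {A Ω : Type} (U V : List (A ⊕ Ω)) (X : Ω) : Prop := Sum.inr X ∈ U ∨ Sum.inr X ∈ V

/-- starting position of the `j`-th factor -/
def st {A Ω : Type} (σ : Ω → List A) (U : List (A ⊕ Ω)) (j : ℕ) : ℕ := (subst σ (U.take j)).length

/-- `p` is the starting position of an occurrence of `X` in `σ U = σ V` -/
def IsOcc {A Ω : Type} (σ : Ω → List A) (U V : List (A ⊕ Ω)) (X : Ω) (p : ℕ) : Prop :=
  (∃ j, U[j]? = some (Sum.inr X) ∧ p = st σ U j) ∨ (∃ j, V[j]? = some (Sum.inr X) ∧ p = st σ V j)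

/-- the word as a function -/
def wd {A Ω : Type} (a0 : A) (σ : Ω → List A) (U : List (A ⊕ Ω)) : ℕ → A :=
  fun x => (subst σ U).getD x a0

/-- **EQ1.** Finitely many solutions (restricted to the occurring variables) of bounded length.
*Proof.* For an occurring `X`, `(σ X).length ≤ (subst σ U).length` (`= (subst σ V).length`). The functions from
the finite type `{X // Occ U V X}` to `{w : List A // w.length ≤ L1}` are finitely many
(`List.finite_length_le`). -/
def S_eqFin : Prop := ∀ (A Ω : Type) [Finite A] (U V : List (A ⊕ Ω)) (L1 : ℕ),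
  Set.Finite {τ : {X : Ω // Occ U V X} → List A | ∃ σ, IsSol U V σ ∧ (∀ X, τ X = σ X.1) ∧
    (subst σ U).length ≤ L1}

/-- **EQ2.** Powers in `σ U` come from powers in some `σ X`.
*Proof.* Let `M = U.length * N + 1` and suppose `p, g > 0`, `p + M * g ≤ L` and the word has period `g` on
`[p, p + M g)`. Each factor of `U` is an interval; its overlap with `[p, p + M g)` is `≤ N * g`: a constant has length
`1 ≤ N * g`, and if a variable `X` had overlap `> N g` (or `≥ N g`) then `σ X` contains a factor of length `N g` with period `g`,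
i.e. `w ^ N`, `w.length = g`. Summing over the factors: `M g ≤ U.length * N * g`, contradiction. (Induction on `U` is
convenient: if `subst σ U` has period `g` on `[p, p + k)` then `k ≤ U.length * (N * g)`.) -/
def S_eqPow : Prop := ∀ (A Ω : Type) (a0 : A) (U : List (A ⊕ Ω)) (σ : Ω → List A) (N : ℕ), 1 ≤ N →
  (∀ X, Sum.inr X ∈ U → ∀ w : List A, w ≠ [] → ¬ (List.replicate N w).flatten <:+: σ X) →
  NoPow (wd a0 σ U) (subst σ U).length (U.length * N + 1)

/-- **EQ3.** Occurrences as windows.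
*Proof.* `subst σ U = subst σ (U.take j) ++ σ X ++ subst σ (U.drop (j+1))` if `U[j]? = some (inr X)`; the same for `V`, and
`subst σ U = subst σ V`. -/
def S_eqWin : Prop := ∀ (A Ω : Type) (a0 : A) (U V : List (A ⊕ Ω)) (σ : Ω → List A), IsSol U V σ →
  (∀ X p, IsOcc σ U V X p → p + (σ X).length ≤ (subst σ U).length ∧
    ∀ k < (σ X).length, wd a0 σ U (p + k) = (σ X).getD k a0) ∧
  (∀ X p, IsOcc σ U V X p → (∃ j ≤ U.length, p = st σ U j) ∨ (∃ j ≤ V.length, p = st σ V j)) ∧
  (∀ X p, IsOcc σ U V X p → (∃ j ≤ U.length, p + (σ X).length = st σ U j) ∨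
    (∃ j ≤ V.length, p + (σ X).length = st σ V j)) ∧
  (∀ j, st σ U j ≤ (subst σ U).length) ∧ (∀ j, st σ V j ≤ (subst σ U).length) ∧
  st σ U 0 = 0 ∧ st σ U U.length = (subst σ U).length

/-- **EQ4.** An inflation which preserves all bands gives a new solution.
*Proof.* `σ' X = infl (wd a0 σ U) u K y p (σ X).length` for a chosen occurrence `p` of `X`, if `X` occurs, and
`σ' X = σ X` otherwise. Nonempty: `infl` of length `≥ 1` contains a letter. By induction on `j ≤ U.length`:
`subst σ' (U.take j) = infl (wd a0 σ U) u K y 0 (st σ U j)` (`infl W u K y p (t + t') = infl W u K y p t ++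
infl W u K y (p + t) t'`; a constant `a` at position `q = st σ U j` gives `infl W u K y q 1 = [W q] = [a]` as `y q = 0`; a
variable gives `σ' X` by the band hypothesis). The same for `V` (with `subst σ U = subst σ V`). -/
def S_eqInfl : Prop := ∀ (A Ω : Type) (a0 : A) (U V : List (A ⊕ Ω)) (σ : Ω → List A), IsSol U V σ →
  ∀ (u : List A) (K : ℕ) (y : ℕ → ℕ),
  (∀ j ≤ U.length, y (st σ U j) = 0) → (∀ j ≤ V.length, y (st σ V j) = 0) →
  (∀ X p p', IsOcc σ U V X p → IsOcc σ U V X p' →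
    infl (wd a0 σ U) u K y p (σ X).length = infl (wd a0 σ U) u K y p' (σ X).length) →
  ∃ σ', IsSol U V σ' ∧ ∀ X p, IsOcc σ U V X p → σ' X = infl (wd a0 σ U) u K y p (σ X).length

/-- **EQ5.** A nonzero value of `y` is strictly inside an occurrence of a variable, and gives a power.
*Proof.* Let `j` be maximal with `st σ U j ≤ q`; as `y (st σ U j) = 0 ≠ y q`, `st σ U j < q < st σ U (j+1)`, so the `j`-th factor has
length `≥ 2`, so it is a variable `X`. With `p = st σ U j`, `infl W u K y p (σ X).length` contains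
`(replicate (K * y q) u).flatten`, and `K ≤ K * y q`. -/
def S_eqHit : Prop := ∀ (A Ω : Type) (a0 : A) (U V : List (A ⊕ Ω)) (σ : Ω → List A), IsSol U V σ →
  ∀ (u : List A) (K : ℕ) (y : ℕ → ℕ), (∀ j ≤ U.length, y (st σ U j) = 0) →
  ∀ q, q < (subst σ U).length → y q ≠ 0 →
  ∃ X p, IsOcc σ U V X p ∧ Sum.inr X ∈ U ∧
    (List.replicate K u).flatten <:+: infl (wd a0 σ U) u K y p (σ X).length

/-- **The answer to Q1.** -/
def Q1 : Prop := ∀ (A Ω : Type) [Finite A] (U V : List (A ⊕ Ω)),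
  Set.Infinite {τ : {X : Ω // Occ U V X} → List A | ∃ σ, IsSol U V σ ∧ ∀ X, τ X = σ X.1} →
  ∀ n : ℕ, ∃ σ, IsSol U V σ ∧ ∃ X, Occ U V X ∧ ∃ w : List A, w ≠ [] ∧
    (List.replicate n w).flatten <:+: σ X

theorem Q1_of (hMB : S_MB) (h1 : S_eqFin) (h2 : S_eqPow) (h3 : S_eqWin) (h4 : S_eqInfl)
    (h5 : S_eqHit) : Q1 := by
  intro A Ω _ U V hinf
  by_contra hcon
  push Not at hcon
  obtain ⟨n0, hn0⟩ := hcon
  -- exponents are bounded by `N = n0 + 1`
  set N := n0 + 1 with hN
  have hbound : ∀ σ, IsSol U V σ → ∀ X, Occ U V X → ∀ w : List A, w ≠ [] →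
      ¬ (List.replicate N w).flatten <:+: σ X := by
    intro σ hσ X hX w hw h
    refine hn0 σ hσ X hX w hw (List.IsInfix.trans ?_ h)
    refine ⟨[], w, ?_⟩
    rw [List.nil_append, hN, List.replicate_succ', List.flatten_append]
    simp
  -- index type of bands
  let occ := (Fin U.length ⊕ Fin V.length)
  let sym : occ → A ⊕ Ω := Sum.elim (fun j => U[j]) (fun j => V[j])
  let κ := {x : occ × occ // sym x.1 = sym x.2 ∧ ∃ X, sym x.1 = Sum.inr X}
  let n := Fintype.card κ
  let eq := Fintype.equivFin κ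
  obtain ⟨L0, hL0⟩ := hMB n (U.length + V.length + 2) (U.length * N + 1)
  -- a long solution
  have hlong : ∃ σ, IsSol U V σ ∧ L0 + 1 ≤ (subst σ U).length := by
    by_contra hc
    push Not at hc
    refine hinf ((h1 A Ω U V L0).subset ?_)
    rintro τ ⟨σ, hσ, hτ⟩
    exact ⟨σ, hσ, hτ, by have := hc σ hσ; omega⟩
  obtain ⟨σ, hσ, hlen⟩ := hlong
  -- a default letter
  obtain ⟨a0⟩ : Nonempty A := by
    cases hs : subst σ U with
    | nil => rw [hs] at hlen; simp at hlen
    | cons a _ => exact ⟨a⟩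
  obtain ⟨hw1, hw2, hw3, hw4, hw5, hw6, hw7⟩ := h3 A Ω a0 U V σ hσ
  let pos : occ → ℕ := Sum.elim (fun j => st σ U j) (fun j => st σ V j)
  let ln : occ → ℕ := fun x => (Sum.elim (fun _ => 1) (fun X => (σ X).length) (sym x))
  have hpos : ∀ (x : occ) (X : Ω), sym x = Sum.inr X → IsOcc σ U V X (pos x) := by
    intro x X hx
    rcases x with j | j
    · left
      refine ⟨j, ?_, rfl⟩
      rw [List.getElem?_eq_getElem j.2]
      exact congrArg some hx
    · right
      refine ⟨j, ?_, rfl⟩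
      rw [List.getElem?_eq_getElem j.2]
      exact congrArg some hx
  have hpos2 : ∀ (X : Ω) (p : ℕ), IsOcc σ U V X p → ∃ x : occ, sym x = Sum.inr X ∧ pos x = p := by
    intro X p hp
    rcases hp with ⟨j, hj, rfl⟩ | ⟨j, hj, rfl⟩
    · obtain ⟨hlt, hj'⟩ := List.getElem?_eq_some_iff.1 hj
      exact ⟨Sum.inl ⟨j, hlt⟩, hj', rfl⟩
    · obtain ⟨hlt, hj'⟩ := List.getElem?_eq_some_iff.1 hj
      exact ⟨Sum.inr ⟨j, hlt⟩, hj', rfl⟩
  let S : Finset ℕ := (Finset.range (U.length + 1)).image (st σ U) ∪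
    (Finset.range (V.length + 1)).image (st σ V)
  have hSU : ∀ j ≤ U.length, st σ U j ∈ S := fun j hj =>
    Finset.mem_union_left _ (Finset.mem_image_of_mem _ (Finset.mem_range.2 (by omega)))
  have hSV : ∀ j ≤ V.length, st σ V j ∈ S := fun j hj =>
    Finset.mem_union_right _ (Finset.mem_image_of_mem _ (Finset.mem_range.2 (by omega)))
  have hScard : S.card ≤ U.length + V.length + 2 := by
    refine (Finset.card_union_le _ _).trans ?_
    have c1 := Finset.card_image_le (s := Finset.range (U.length + 1)) (f := st σ U)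
    have c2 := Finset.card_image_le (s := Finset.range (V.length + 1)) (f := st σ V)
    rw [Finset.card_range] at c1 c2
    omega
  have hSocc : ∀ X p, IsOcc σ U V X p → p ∈ S := by
    intro X p hp
    rcases hw2 X p hp with ⟨j, hj, rfl⟩ | ⟨j, hj, rfl⟩
    · exact hSU j hj
    · exact hSV j hj
  have hSocc' : ∀ X p, IsOcc σ U V X p → p + (σ X).length ∈ S := by
    intro X p hp
    rcases hw3 X p hp with ⟨j, hj, he⟩ | ⟨j, hj, he⟩
    · rw [he]; exact hSU j hj
    · rw [he]; exact hSV j hj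
  let a : Fin n → ℕ := fun i => pos (eq.symm i).1.1
  let b : Fin n → ℕ := fun i => pos (eq.symm i).1.2
  let m : Fin n → ℕ := fun i => ln (eq.symm i).1.1
  have hvar : ∀ i : Fin n, ∃ X, IsOcc σ U V X (a i) ∧ IsOcc σ U V X (b i) ∧ m i = (σ X).length := by
    intro i
    obtain ⟨hs, X, hX⟩ := (eq.symm i).2
    refine ⟨X, hpos _ X hX, hpos _ X (hs ▸ hX), ?_⟩
    change ln (eq.symm i).1.1 = _
    simp only [ln, hX, Sum.elim_inr]
  have hMB' := hL0 A (wd a0 σ U) (subst σ U).length a b m S (by omega) hScard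
    (by rw [← hw6]; exact hSU 0 (Nat.zero_le _)) (by rw [← hw7]; exact hSU _ le_rfl)
    (fun i => by obtain ⟨X, h, _, _⟩ := hvar i; exact hSocc X _ h)
    (fun i => by obtain ⟨X, _, h, _⟩ := hvar i; exact hSocc X _ h)
    (fun i => by obtain ⟨X, h, _, hm⟩ := hvar i; rw [hm]; exact hSocc' X _ h)
    (fun i => by obtain ⟨X, _, h, hm⟩ := hvar i; rw [hm]; exact hSocc' X _ h)
    (fun q hq => by
      rcases Finset.mem_union.1 hq with h | h
      · obtain ⟨j, _, rfl⟩ := Finset.mem_image.1 h; exact hw4 j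
      · obtain ⟨j, _, rfl⟩ := Finset.mem_image.1 h; exact hw5 j)
    (fun i k hk => by
      obtain ⟨X, ha, hb, hm⟩ := hvar i
      rw [hm] at hk
      rw [(hw1 X _ ha).2 k hk, (hw1 X _ hb).2 k hk])
    (h2 A Ω a0 U σ N (by omega) (fun X hX w hw => hbound σ hσ X (Or.inl hX) w hw))
  obtain ⟨u, y, hu, hyS, ⟨q, hqL, hq⟩, hinfl⟩ := hMB'
  obtain ⟨σ', hσ', hσ'2⟩ := h4 A Ω a0 U V σ hσ u N y (fun j hj => hyS _ (hSU j hj))
    (fun j hj => hyS _ (hSV j hj)) (by
      intro X p p' hp hp'
      obtain ⟨x, hx, rfl⟩ := hpos2 X p hp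
      obtain ⟨x', hx', rfl⟩ := hpos2 X p' hp'
      have := hinfl N (eq ⟨(x, x'), by simp only [hx, hx'], X, hx⟩)
      simp only [a, b, m, Equiv.symm_apply_apply, ln, hx, Sum.elim_inr] at this
      exact this)
  obtain ⟨X, p, hp, hXU, hpow⟩ := h5 A Ω a0 U V σ hσ u N y (fun j hj => hyS _ (hSU j hj)) q hqL hq
  rw [← hσ'2 X p hp] at hpow
  exact hbound σ' hσ' X (Or.inl hXU) u hu hpow

end H724.WE
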