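import Pool.Agent.H724.WE.MBAsm
import Pool.Agent.H724.WE.EqStm
import Pool.Agent.H724.WE.ChainBound
import Pool.Agent.H724.WE.P.LN
import Pool.Agent.H724.WE.P.NoLightPair
import Pool.Agent.H724.WE.P.Depth
import Pool.Agent.H724.WE.P.Status
import Pool.Agent.H724.WE.P.BrkMono
import Pool.Agent.H724.WE.P.ChainSame
import Pool.Agent.H724.WE.P.FirstBreak
import Pool.Agent.H724.WE.P.ForestCard
import Pool.Agent.H724.WE.P.Hair
import Pool.Agent.H724.WE.P.Core
import Pool.Agent.H724.WE.P.Bad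
import Pool.Agent.H724.WE.P.Kruskal
import Pool.Agent.H724.WE.P.Scale
import Pool.Agent.H724.WE.P.DForest
import Pool.Agent.H724.WE.P.Shift
import Pool.Agent.H724.WE.P.Deg
import Pool.Agent.H724.WE.P.DBd
import Pool.Agent.H724.WE.P.PumpW
import Pool.Agent.H724.WE.P.PumpLift
import Pool.Agent.H724.WE.P.EqBook
import Pool.Agent.H724.WE.P.EqPow
import Pool.Agent.H724.WE.P.EqInfl

/-!
# Project WE: final assembly (MP_fd2cd0_lc)
-/

namespace H724.WE

theorem AT : S_AT :=
  AT_of H51.WE.free (H879.WE.depth_of H51.WE.lightNested H17.noLightPair)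
    Pool.Agent.H100.WE.status H323.WEBad.bad H148.WE.brk H597.WE.chainSame H148.WE.mono
    H196.WE.firstBreak chainBound Pool.Agent.H282.WE.forestCard H190.WE.hair H358.WE.core

theorem MB : S_MB :=
  MB_of AT H358.WE.kruskal Pool.Agent.H94.WE.scale Pool.Agent.H94.WE.power
    DForest.dForest Pool.Agent.H297.WE.dShift Pool.Agent.H297.WE.dAxioms
    Pool.Agent.H935.WE.dDeg Pool.Agent.H935.WE.dMark H79.WEb.dBd H79.WEb.dSize H323.WE.pumpW
    Pool.Agent.H658.WE.pumpLift

theorem Q1_true : Q1 :=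
  Q1_of MB Pool.Agent.H328.WE.eqFin Pool.Agent.H980.WE.eqPow Pool.Agent.H328.WE.eqWin
    Pool.Agent.H225.WE.eqInfl Pool.Agent.H225.WE.eqHit

end H724.WE
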