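import Pool.Agent.H724.WE.WStm

/-! Assembly of the main theorem on words with bands from the statements. -/

namespace H724.WE

open Finset
open scoped Classical

theorem MB_of (hAT : S_AT) (hK : S_kruskal) (hS : S_scale) (hP : S_power) (h1 : S_dForest)
    (h2 : S_dShift) (h3 : S_dAxioms) (hDeg : S_dDeg) (hMark : S_dMark) (hBd : S_dBd)
    (hSize : S_dSize) (hPW : S_pumpW) (hLift : S_pumpLift) : S_MB := by
  intro n B N
  obtain ⟨F, hF⟩ := hAT n N (n * n * N) (B + 6 * n)
  set lam := F * (B + 10 * n) + 3 with hlam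
  refine ⟨(2 * lam) ^ (2 * n + 1), ?_⟩
  intro α W L a b m S hL hSB h0 hLS ha hb ham hbm hSle hband hpow
  obtain ⟨c, hc1, hc2, hc3⟩ := hK n a b m
  obtain ⟨k, hk, hkf⟩ := hS (Fin n ⊕ Fin n) (Sum.elim m c) (2 * lam) (by omega)
  have hk' : k ≤ 2 * n := by
    have : Fintype.card (Fin n ⊕ Fin n) = 2 * n := by simp; ring
    omega
  have hr1 : 1 ≤ (2 * lam) ^ k := Nat.one_le_pow _ _ (by omega)
  have h2l : 2 * (lam * (2 * lam) ^ k) = (2 * lam) ^ (k + 1) := by ring
  let X : Dat α :=
    { n := n, a := a, b := b, m := m, c := c, W := W, L := L, S := S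
      r := (2 * lam) ^ k
      l := lam * (2 * lam) ^ k
      zero_mem := h0, L_mem := hLS, a_mem := ha, b_mem := hb, am_mem := ham, bm_mem := hbm
      S_le := hSle, band := hband, forest := hc2, red := hc3
      r_pos := hr1
      r_lt := by
        have h3 : 3 * (2 * lam) ^ k ≤ lam * (2 * lam) ^ k := Nat.mul_le_mul_right _ (by omega)
        omega
      l_le := by
        have h3 : (2 * lam) ^ (k + 1) ≤ (2 * lam) ^ (2 * n + 1) :=
          Nat.pow_le_pow_right (by omega) (by omega)
        omega
      m_cases := fun i => by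
        have := hkf (Sum.inl i)
        simp only [Sum.elim_inl] at this
        rw [h2l]; exact this
      c_cases := fun i => by
        have := hkf (Sum.inr i)
        simp only [Sum.elim_inr] at this
        rw [h2l]
        rcases this with h | h
        · exact Or.inl h.le
        · exact Or.inr h }
  let G := X.toSF h1 h2 h3
  have hcard : Fintype.card X.ι ≤ n := by
    have : Fintype.card X.ι ≤ Fintype.card (Fin n) :=
      Fintype.card_le_of_injective (fun x : X.ι => (x.1 : Fin n)) (fun x y h => Subtype.ext h)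
    simpa using this
  have hdeg : G.DegLe N := hDeg hP α X N hpow
  have hM : G.Mk.card ≤ n * n * N := hMark hP α X N hpow
  have hbd := hBd h2 α X
  have hU : G.bdU.card ≤ B + 6 * n := by
    refine le_trans hbd.1 ?_
    exact Nat.add_le_add_right hSB _
  have hD : G.bdD.card ≤ B + 6 * n := by
    refine le_trans hbd.2 ?_
    exact Nat.add_le_add_right hSB _
  rcases hF X.V X.ι G hcard hdeg hM hU hD with ⟨y, hy⟩ | hle
  · obtain ⟨y', hy', q, hqL, hq⟩ := hLift h1 h2 h3 α X y hy
    obtain ⟨u, hu, hinf⟩ := hPW α X y' hy'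
    refine ⟨u, y', hu, ?_, ⟨q, hqL, hq⟩, hinf⟩
    intro q hqS
    refine hy'.1 q ?_
    simp only [Dat.Z0, Finset.mem_filter, Finset.mem_range]
    exact ⟨Nat.lt_succ_of_le (hSle q hqS), Or.inl hqS⟩
  · exfalso
    have hsz := hSize α X
    have hZ : X.Z.card ≤ B + 2 * n * (2 * lam) ^ k + 2 * n * ((2 * lam) ^ k + 3) :=
      hsz.2.trans (by
        have : X.S.card ≤ B := hSB
        have hn : X.n = n := rfl
        have hr : X.r = (2 * lam) ^ k := rfl
        rw [hn, hr]; omega)
    have hZ2 : X.Z.card ≤ (B + 10 * n) * (2 * lam) ^ k := by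
      refine hZ.trans ?_
      nlinarith [Nat.zero_le (B * ((2 * lam) ^ k - 1)), Nat.zero_le n, Nat.zero_le B,
        Nat.mul_le_mul_left B hr1, Nat.mul_le_mul_left n hr1]
    have hV : lam * (2 * lam) ^ k ≤ F * X.Z.card := hsz.1.trans hle
    have h5 : lam * (2 * lam) ^ k ≤ F * (B + 10 * n) * (2 * lam) ^ k := by
      refine hV.trans ?_
      calc F * X.Z.card ≤ F * ((B + 10 * n) * (2 * lam) ^ k) := Nat.mul_le_mul_left F hZ2
        _ = F * (B + 10 * n) * (2 * lam) ^ k := by ring
    have h6 : lam ≤ F * (B + 10 * n) := Nat.le_of_mul_le_mul_right h5 (by omega)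
    omega

end H724.WE
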