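import Pool.Agent.H724.WE.Conn

/-!
# Project WE (helper724), layer 1: shift forests

A shift forest: a finite forest whose edges are `(i, o)`, `i : ι` a band, `r ≤ o < l` an offset, with
endpoints `pt false i o`, `pt true i o`, with a marked set `Z` of vertices, and partial shift maps
`up`, `dn` (translation by `+1`, `-1`) away from `Z`.
A dart is a triple `(i, o, s) : ι × ℕ × Bool`: the edge `(i, o)` directed towards `pt s i o`.
-/

namespace H724.WE

open Finset
open scoped Classical

/-- Shift forest. -/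
structure SF (V ι : Type) where
  r : ℕ
  l : ℕ
  pt : Bool → ι → ℕ → V
  Z : Finset V
  up : V → V
  dn : V → V
  Mk : Finset (ι × ℕ)
  hrl : r < l
  forest : ∀ i o, r ≤ o → o < l →
    ¬ Conn (fun e : ι × ℕ => pt false e.1 e.2) (fun e : ι × ℕ => pt true e.1 e.2)
      ({e | r ≤ e.2 ∧ e.2 < l} \ {(i, o)}) (pt false i o) (pt true i o)
  hr : ∀ s i, pt s i r ∈ Z
  hl : ∀ s i, pt s i (l - 1) ∈ Z
  hup : ∀ s i o, r ≤ o → o + 1 < l → pt s i o ∉ Z → up (pt s i o) = pt s i (o + 1)
  hdn : ∀ s i o, r ≤ o → o + 1 < l → pt s i (o + 1) ∉ Z → dn (pt s i (o + 1)) = pt s i o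
  dnup : ∀ v, v ∉ Z → up v ∉ Z → dn (up v) = v
  updn : ∀ v, v ∉ Z → dn v ∉ Z → up (dn v) = v

/-- Darts (directed edges): `(i, o, s)` is the edge `(i, o)` directed towards `pt s i o`. -/
abbrev Dart (ι : Type) := ι × ℕ × Bool

/-- reversed dart -/
def rev {ι : Type} (d : Dart ι) : Dart ι := (d.1, d.2.1, !d.2.2)

/-- shifted dart -/
def sh {ι : Type} (d : Dart ι) : Dart ι := (d.1, d.2.1 + 1, d.2.2)

/-- the edge of a dart -/
def ed {ι : Type} (d : Dart ι) : ι × ℕ := (d.1, d.2.1)

@[simp] theorem rev_rev {ι : Type} (d : Dart ι) : rev (rev d) = d := by simp [rev]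
@[simp] theorem ed_rev {ι : Type} (d : Dart ι) : ed (rev d) = ed d := by simp [rev, ed]
theorem rev_ne {ι : Type} (d : Dart ι) : rev d ≠ d := by
  intro h
  have := congrArg (fun x => x.2.2) h
  simp [rev] at this
theorem rev_sh {ι : Type} (d : Dart ι) : rev (sh d) = sh (rev d) := rfl
theorem eq_or_eq_rev {ι : Type} {d f : Dart ι} (h : ed d = ed f) : f = d ∨ f = rev d := by
  rcases d with ⟨i, o, s⟩
  rcases f with ⟨j, p, t⟩
  simp only [ed, Prod.mk.injEq] at h
  obtain ⟨rfl, rfl⟩ := h
  cases s <;> cases t <;> simp [rev]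

namespace SF

variable {V ι : Type} (G : SF V ι)

/-- head of a dart -/
def hd (d : Dart ι) : V := G.pt d.2.2 d.1 d.2.1
/-- tail of a dart -/
def tl (d : Dart ι) : V := G.pt (!d.2.2) d.1 d.2.1

@[simp] theorem hd_rev (d : Dart ι) : G.hd (rev d) = G.tl d := rfl
@[simp] theorem tl_rev (d : Dart ι) : G.tl (rev d) = G.hd d := by simp [hd, tl, rev]

/-- the set of all edges -/
def E : Set (ι × ℕ) := {e | G.r ≤ e.2 ∧ e.2 < G.l}

/-- valid darts -/
def val (d : Dart ι) : Prop := G.r ≤ d.2.1 ∧ d.2.1 < G.l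

@[simp] theorem val_rev (d : Dart ι) : G.val (rev d) ↔ G.val d := Iff.rfl

/-- connectivity by a set of edges -/
def C (S : Set (ι × ℕ)) : V → V → Prop :=
  Conn (fun e : ι × ℕ => G.pt false e.1 e.2) (fun e : ι × ℕ => G.pt true e.1 e.2) S

/-- A dart of an edge in `S` connects its tail to its head. -/
theorem C_dart {S : Set (ι × ℕ)} {d : Dart ι} (hd : ed d ∈ S) : G.C S (G.tl d) (G.hd d) := by
  rcases d with ⟨i, o, s⟩
  cases s
  · exact Conn.edge' (e := (i, o)) hd
  · exact Conn.edge (e := (i, o)) hd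

/-- `far d`: all vertices connected to the head of `d` without using the edge of `d`. -/
def far (d : Dart ι) : Set V := {x | G.C (G.E \ {ed d}) (G.hd d) x}

theorem hd_mem_far (d : Dart ι) : G.hd d ∈ G.far d := Conn.refl _

theorem tl_not_mem_far {d : Dart ι} (hd : G.val d) : G.tl d ∉ G.far d := by
  rcases d with ⟨i, o, s⟩
  intro h
  cases s
  · exact G.forest i o hd.1 hd.2 h
  · exact G.forest i o hd.1 hd.2 (Conn.symm h)

/-- closure of `far d` under the edges different from `ed d` (dart version) -/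
theorem far_closed {d f : Dart ι} (hf : G.val f) (hne : ed f ≠ ed d) (h : G.tl f ∈ G.far d) :
    G.hd f ∈ G.far d := by
  have : G.C (G.E \ {ed d}) (G.tl f) (G.hd f) := G.C_dart ⟨hf, hne⟩
  exact Conn.trans h this

theorem far_closed_iff {d f : Dart ι} (hf : G.val f) (hne : ed f ≠ ed d) :
    G.tl f ∈ G.far d ↔ G.hd f ∈ G.far d :=
  ⟨G.far_closed hf hne, fun h => by
    have := G.far_closed (d := d) (f := rev f) hf (by simpa using hne) (by simpa using h)
    simpa using this⟩

theorem far_rev_disjoint {d : Dart ι} (hd : G.val d) {x : V} (h1 : x ∈ G.far d)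
    (h2 : x ∈ G.far (rev d)) : False := by
  have h3 : G.C (G.E \ {ed d}) (G.hd d) (G.tl d) := by
    have h2' : G.C (G.E \ {ed d}) (G.tl d) x := by
      have := h2
      simpa [far] using this
    exact Conn.trans h1 (Conn.symm h2')
  exact G.tl_not_mem_far hd h3

/-- If neither endpoint of `ed f` is in `far d`, then `far d` is obtained without using `ed f`. -/
theorem far_avoid {d f : Dart ι} (h1 : G.hd f ∉ G.far d) (h2 : G.tl f ∉ G.far d) {x : V}
    (hx : x ∈ G.far d) : G.C ((G.E \ {ed d}) \ {ed f}) (G.hd d) x := by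
  have key := Conn.restrict hx
  refine Conn.mono ?_ key
  rintro e ⟨he, he2⟩
  refine ⟨he, ?_⟩
  rintro rfl
  rcases f with ⟨i, o, s⟩
  cases s
  · exact h1 he2
  · exact h2 he2

/-- Nesting: if the tail of `f` is in `far d` and the head of `d` is not in `far f`
(`ed f ≠ ed d`) then `far f ⊆ far d`. -/
theorem nest {d f : Dart ι} (hd : G.val d) (hf : G.val f) (hne : ed f ≠ ed d)
    (h1 : G.tl f ∈ G.far d) (h2 : G.hd d ∉ G.far f) :
    G.far f ⊆ G.far d ∧ G.tl d ∉ G.far f := by
  have h3 : G.tl d ∉ G.far f := by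
    intro h
    exact h2 (G.far_closed hd (Ne.symm hne) h)
  refine ⟨?_, h3⟩
  intro x hx
  have h4 := G.far_avoid h2 h3 hx
  have h5 : G.C (G.E \ {ed d}) (G.hd f) x := by
    refine Conn.mono ?_ h4
    rintro e ⟨⟨he, _⟩, he2⟩
    exact ⟨he, he2⟩
  exact Conn.trans (G.far_closed hf hne h1) h5

/-- For an edge `ed f` inside `far d`, at least one of its two darts points away from `d`. -/
theorem dich {d f : Dart ι} (hf : G.val f) : G.hd d ∉ G.far f ∨ G.hd d ∉ G.far (rev f) := by
  by_contra h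
  push Not at h
  exact G.far_rev_disjoint hf h.1 h.2

/-- Decomposition of `far d` at the head of `d`. -/
theorem far_cases {d : Dart ι} {x : V} (hx : x ∈ G.far d) :
    x = G.hd d ∨ ∃ f : Dart ι, G.val f ∧ ed f ≠ ed d ∧ G.tl f = G.hd d ∧ x ∈ G.far f := by
  have : x ∈ {x | x = G.hd d ∨ ∃ f : Dart ι, G.val f ∧ ed f ≠ ed d ∧ G.tl f = G.hd d ∧ x ∈ G.far f} := by
    refine Conn.mem_of_closed (Or.inl rfl) ?_ hx
    intro e he
    -- symmetric statement for darts
    have key : ∀ g : Dart ι, ed g = e →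
        (G.tl g = G.hd d ∨ ∃ f : Dart ι, G.val f ∧ ed f ≠ ed d ∧ G.tl f = G.hd d ∧ G.tl g ∈ G.far f) →
        (G.hd g = G.hd d ∨ ∃ f : Dart ι, G.val f ∧ ed f ≠ ed d ∧ G.tl f = G.hd d ∧ G.hd g ∈ G.far f) := by
      rintro g rfl hg
      have hgv : G.val g := he.1
      have hgne : ed g ≠ ed d := he.2
      rcases hg with hg | ⟨f, hf, hfne, hft, hgf⟩
      · exact Or.inr ⟨g, hgv, hgne, hg, G.hd_mem_far g⟩
      · by_cases hfg : ed g = ed f
        · rcases eq_or_eq_rev hfg.symm with rfl | rfl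
          · exact absurd hgf (G.tl_not_mem_far hf)
          · left
            simpa using hft
        · exact Or.inr ⟨f, hf, hfne, hft, G.far_closed hgv hfg hgf⟩
    constructor
    · intro h
      exact key (e.1, e.2, true) rfl h
    · intro h
      exact key (e.1, e.2, false) rfl h
  exact this

/-- Decomposition of the component of a vertex `v`. -/
theorem comp_cases {v x : V} (hx : G.C G.E v x) :
    x = v ∨ ∃ f : Dart ι, G.val f ∧ G.tl f = v ∧ x ∈ G.far f := by
  have : x ∈ {x | x = v ∨ ∃ f : Dart ι, G.val f ∧ G.tl f = v ∧ x ∈ G.far f} := by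
    refine Conn.mem_of_closed (Or.inl rfl) ?_ hx
    intro e he
    have key : ∀ g : Dart ι, ed g = e →
        (G.tl g = v ∨ ∃ f : Dart ι, G.val f ∧ G.tl f = v ∧ G.tl g ∈ G.far f) →
        (G.hd g = v ∨ ∃ f : Dart ι, G.val f ∧ G.tl f = v ∧ G.hd g ∈ G.far f) := by
      rintro g rfl hg
      have hgv : G.val g := he
      rcases hg with hg | ⟨f, hf, hft, hgf⟩
      · exact Or.inr ⟨g, hgv, hg, G.hd_mem_far g⟩
      · by_cases hfg : ed g = ed f
        · rcases eq_or_eq_rev hfg.symm with rfl | rfl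
          · exact absurd hgf (G.tl_not_mem_far hf)
          · left
            simpa using hft
        · exact Or.inr ⟨f, hf, hft, G.far_closed hgv hfg hgf⟩
    constructor
    · intro h
      exact key (e.1, e.2, true) rfl h
    · intro h
      exact key (e.1, e.2, false) rfl h
  exact this

/-- light darts: the far side avoids `Z` -/
def light (d : Dart ι) : Prop := ∀ x ∈ G.far d, x ∉ G.Z

/-- core darts: valid, and heavy (not light) in both directions -/
def core (d : Dart ι) : Prop := G.val d ∧ ¬ G.light d ∧ ¬ G.light (rev d)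

theorem core_rev {d : Dart ι} : G.core (rev d) ↔ G.core d := by
  unfold core
  simp only [rev_rev, val_rev]
  tauto

/-- successor relation on core darts: `f` is the only continuation of `d` in the core, at a head
`∉ Z` of core degree two. -/
def Nx (d f : Dart ι) : Prop :=
  G.core d ∧ G.core f ∧ G.tl f = G.hd d ∧ f ≠ rev d ∧ G.hd d ∉ G.Z ∧
    ∀ g : Dart ι, G.val g → G.tl g = G.hd d → ¬ G.light g → g = f ∨ g = rev d

/-- segment number of the edge `(i, o)`: the number of markers of band `i` at offsets `≤ o` -/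
noncomputable def sg (i : ι) (o : ℕ) : ℕ := (G.Mk.filter (fun e => e.1 = i ∧ e.2 ≤ o)).card

/-- A pump: a function `y : V → ℕ`, not identically zero, zero on `Z`, and constant along all edges
except (possibly) for two edges `(i, o₁)`, `(i, o₂)` of one band, `o₁ < o₂`, where it has
violations `+1` and `-1` (with respect to side `s`), such that `y` vanishes on the band `i` strictly
between `o₁` and `o₂` and there is no marker in `(o₁, o₂]`. -/
def IsPump (y : V → ℕ) : Prop :=
  (∃ v, y v ≠ 0) ∧ (∀ v ∈ G.Z, y v = 0) ∧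
  ((∀ i o, G.r ≤ o → o < G.l → y (G.pt false i o) = y (G.pt true i o)) ∨
   ∃ i s o₁ o₂, o₁ < o₂ ∧ G.r ≤ o₁ ∧ o₂ < G.l ∧
     y (G.pt s i o₁) = y (G.pt (!s) i o₁) + 1 ∧ y (G.pt (!s) i o₂) = y (G.pt s i o₂) + 1 ∧
     (∀ t k, o₁ < k → k < o₂ → y (G.pt t i k) = 0) ∧
     (∀ k, o₁ < k → k ≤ o₂ → (i, k) ∉ G.Mk) ∧
     (∀ j o, G.r ≤ o → o < G.l → (j, o) ≠ (i, o₁) → (j, o) ≠ (i, o₂) →
        y (G.pt false j o) = y (G.pt true j o)))

/-- There is no pump. -/
def NoPump : Prop := ∀ y : V → ℕ, ¬ G.IsPump y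

end SF

end H724.WE
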