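import Pool.Agent.H724.WE.SF

/-!
# Project WE (helper724), layer 1: statements about shift forests

Every `S_X : Prop` is one subtask; the docstring contains the full paper proof.
Conventions: a dart `d = (i, o, s)` is the edge `(i, o)` directed to `pt s i o = G.hd d`;
`G.far d` = all vertices connected to `G.hd d` without the edge `ed d`; `light d`: `far d ∩ Z = ∅`;
`core d`: `d` valid, `d` and `rev d` both not light.
Proved in `SF.lean` (use them): `hd_mem_far, tl_not_mem_far, far_closed, far_closed_iff,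
far_rev_disjoint, far_avoid, nest, dich, far_cases, comp_cases, core_rev, C_dart, rev_rev, ed_rev,
eq_or_eq_rev`, and the `Conn` API in `Conn.lean` (`mem_of_closed` is the main induction principle).
-/

namespace H724.WE

open Finset
open scoped Classical

namespace SF

variable {V ι : Type} (G : SF V ι)

/-- the finite set of valid darts -/
noncomputable def darts [Fintype ι] : Finset (Dart ι) :=
  (univ : Finset ι) ×ˢ (Finset.Ico G.r G.l ×ˢ (univ : Finset Bool))

theorem mem_darts [Fintype ι] (d : Dart ι) : d ∈ G.darts ↔ G.val d := by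
  simp [darts, val]

/-- `f` is nested in `d` (pointing away from `d`) -/
def nested (d f : Dart ι) : Prop := G.tl f ∈ G.far d ∧ G.hd d ∉ G.far f

/-- the darts whose status light/heavy changes under the shift -/
noncomputable def SC [Fintype ι] : Finset (Dart ι) :=
  G.darts.filter (fun d => G.val (sh d) ∧ ¬ (G.light d ↔ G.light (sh d)))

/-- the shift at `d` is parallel for the successor relation -/
def Par (d : Dart ι) : Prop :=
  (∀ f, G.Nx d f → G.Nx (sh d) (sh f)) ∧ (∀ f', G.Nx (sh d) f' → ∃ f, f' = sh f ∧ G.Nx d f)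

/-- bad darts: the shift is not parallel -/
noncomputable def Bad [Fintype ι] : Finset (Dart ι) :=
  G.darts.filter (fun d => G.val (sh d) ∧ ¬ G.Par d)

/-- breaks: edges `(i, k)` such that `(i, k+1)` is a marker or the core status changes between `k`
and `k+1` -/
noncomputable def Brk [Fintype ι] : Finset (ι × ℕ) :=
  ((univ : Finset ι) ×ˢ Finset.Ico G.r G.l).filter (fun e => e.2 + 1 < G.l ∧
    ((e.1, e.2 + 1) ∈ G.Mk ∨
      ¬ (G.core (e.1, e.2, false) ↔ G.core (e.1, e.2 + 1, false))))

/-- cell number of the edge `(i, o)`: number of breaks of band `i` at offsets `< o` -/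
noncomputable def cid [Fintype ι] (i : ι) (o : ℕ) : ℕ :=
  (G.Brk.filter (fun e => e.1 = i ∧ e.2 < o)).card

/-- A chain of length `m`: `d 0, …, d m` with `Nx (d q) (d (q+1))`. -/
def IsChain (d : ℕ → Dart ι) (m : ℕ) : Prop := ∀ q < m, G.Nx (d q) (d (q + 1))

/-- boundary of `Z`, upper side -/
noncomputable def bdU [Fintype V] : Finset V := univ.filter (fun v => v ∉ G.Z ∧ G.up v ∈ G.Z)
/-- boundary of `Z`, lower side -/
noncomputable def bdD [Fintype V] : Finset V := univ.filter (fun v => v ∉ G.Z ∧ G.dn v ∈ G.Z)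

/-- every vertex is the `s`-endpoint of at most `Nd` edges of each band -/
def DegLe (Nd : ℕ) : Prop :=
  ∀ (s : Bool) (i : ι) (v : V), ((Finset.Ico G.r G.l).filter (fun o => G.pt s i o = v)).card ≤ Nd

/-- core vertices: marked vertices and vertices with at least two heavy outgoing darts -/
noncomputable def K [Fintype V] : Finset V :=
  univ.filter (fun v => v ∈ G.Z ∨ ∃ d f : Dart ι, G.val d ∧ G.val f ∧ d ≠ f ∧ G.tl d = v ∧
    G.tl f = v ∧ ¬ G.light d ∧ ¬ G.light f)

end SF

/-- **AB1.** If there is no pump then every vertex is connected to a marked vertex.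
*Proof.* Otherwise let `y` be the indicator function of the component `{x | C E v x}`; it is zero
on `Z`, nonzero at `v` and constant along every edge: a pump (first alternative of `IsPump`). -/
def S_free : Prop := ∀ (V ι : Type) (G : SF V ι), G.NoPump → ∀ v : V, ∃ z ∈ G.Z, G.C G.E v z

/-- **AB2.** If there is no pump, two light darts whose far sides meet are nested.
*Proof.* `ed d ≠ ed f` is given. Case `tl f ∈ far d` (equivalently `hd f ∈ far d`, by `far_closed_iff`):
if `hd d ∉ far f` then `nested d f` and we are done. If `hd d ∈ far f` then also `tl d ∈ far f`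
(closedness); then `T := far d ∪ far f` is closed under every edge: an edge `e ≠ ed d, ed f`
preserves both; `ed d`: `hd d ∈ far d`, `tl d ∈ far f`, both in `T`; `ed f`: similarly. So `T` is a
union of components, nonempty, disjoint from `Z` (both light): contradiction to `S_free`
(`T` contains everything connected to `hd d`, by `Conn.mem_of_closed`).
Case `tl f ∉ far d`: then `hd f ∉ far d` too. By `far_avoid`, `x` (and every point of `far d`) is
connected to `hd d` without `ed d`, `ed f`; as `x ∈ far f` we get `hd d ∈ far f`, hence `tl d ∈ far f`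
(`far_closed`), and `hd f ∉ far d`: this is `nested f d`. -/
def S_lightNested : Prop := ∀ (V ι : Type) (G : SF V ι), G.NoPump → ∀ (d f : Dart ι) (x : V),
  G.val d → G.val f → ed d ≠ ed f → G.light d → G.light f → x ∈ G.far d → x ∈ G.far f →
  G.nested d f ∨ G.nested f d

/-- **AB3.** If there is no pump: two light darts of the same band and the same segment (no marker
between them), at different offsets, have the same side and are not nested.
*Proof.* Call a pair `(d, f)` of valid light darts, `d = (i, o, s)`, `f = (i, o', t)`, `o ≠ o'`,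
`sg i o = sg i o'`, *bad* if `s ≠ t` or (`s = t` and (`nested d f` or `nested f d`)). Suppose there is a
bad pair; take one with `|o - o'|` minimal (strong induction); (symmetry: we may exchange `d` and `f`.)
*Case `s ≠ t`.* Put `y = 1_{far d} + 1_{far f}`. It vanishes on `Z`, and is nonzero. `1_{far d}` is constant
along all edges except `ed d`, where it is `1` on the side `hd d` and `0` on the side `tl d`; the same
for `f`. So `y (pt s i o) = y (pt (!s) i o) + 1` (here use that `1_{far f}` takes the same value on both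
ends of `ed d`), `y (pt (!s) i o') = y (pt s i o') + 1` (`t = !s`), and `y` is constant along other edges.
If `y` vanishes at all `pt _ i k`, `k` strictly between `o` and `o'`, this is a pump (take
`o₁ = min o o'`, `o₂ = max o o'`; no markers `(i,k)`, `o₁ < k ≤ o₂`, because `sg i o₁ = sg i o₂` and
`sg` counts them). Otherwise let `k` be strictly between with, say, an end of `(i,k)` in `far d`
(the case `far f` is symmetric); both ends are then in `far d` (`(i,k) ≠ ed d`). By `dich` one of the
two darts `g` of `(i,k)` has `hd d ∉ far g`, so by `nest` `far g ⊆ far d`, hence `g` is light. If `g` has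
side `s`: the pair `(g, f)` has different sides and smaller distance `|k - o'|` (`sg i k` is between
the two equal numbers, `sg` being monotone): contradiction to minimality. If `g` has side `t ≠ s`: the
pair `(d, g)` has different sides and smaller distance.
*Case `s = t`, say `nested d f`* (`far f ⊆ far d`, `hd d, tl d ∉ far f` by `nest`). Put
`y = 1_{far d \ far f}`. It vanishes on `Z`; `y (hd d) = 1`, `y (tl d) = 0`; `hd f ∈ far f` so
`y (hd f) = 0`; `tl f ∈ far d`, `tl f ∉ far f` so `y (tl f) = 1`; constant on other edges. So again a pump unless there is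
`k` strictly between with an end (hence both ends) of `(i,k)` in `far d \ far f`. As before one of
its darts `g` has `hd d ∉ far g`, is light and `nested d g`. If its side is `s` the pair `(d, g)` is
nested with smaller distance, if its side is `!s` then `(d, g)` is a pair with different sides and
smaller distance. Contradiction. -/
def S_noLightPair : Prop := ∀ (V ι : Type) (G : SF V ι), G.NoPump → ∀ (i : ι) (o o' : ℕ) (s t : Bool),
  G.val (i, o, s) → G.val (i, o', t) → G.light (i, o, s) → G.light (i, o', t) → o ≠ o' →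
  G.sg i o = G.sg i o' → s = t ∧ ¬ G.nested (i, o, s) (i, o', t) ∧ ¬ G.nested (i, o', t) (i, o, s)

/-- **AB4.** (uses AB2, AB3) If there is no pump, a vertex is in the far side of at most
`card ι * (card Mk + 1)` light darts.
*Proof.* Map a light dart `d = (i, o, s)` with `x ∈ far d` to `(i, sg i o) ∈ ι × {0, …, card Mk}`. This is
injective: if `d = (i,o,s)`, `f = (i,o',t)` have the same image and `o = o'`, then `f = d` or `f = rev d`;
the latter is impossible by `far_rev_disjoint`. If `o ≠ o'` then by AB2 they are nested, contradiction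
to AB3. -/
def S_depth : Prop := ∀ (V ι : Type) [Fintype V] [Fintype ι] (G : SF V ι), G.NoPump → ∀ x : V,
  (G.darts.filter (fun d => G.light d ∧ x ∈ G.far d)).card ≤ Fintype.card ι * (G.Mk.card + 1)

/-- **AB5.** (uses AB4 as hypothesis, in the form of the bound `D`) Number of status changes.
*Proof.* (1) Let `d` be valid and light with `sh d` valid and not light. Claim: there is `z ∈ far d` with
`z ∈ bdU`. Suppose not: every `z ∈ far d` is `∉ Z` (light) and has `up z ∉ Z`. Let
`T = {w | ∃ z ∈ far d, w = up z}`. Then `hd (sh d) = up (hd d) ∈ T` (by `hup`; `hd d ∉ Z`). `T` is closed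
under every edge `e = ed g'`, `g'` valid, `≠ ed (sh d)`: if `tl g' = up z`, `z ∈ far d`, `g' = (j, p, t)`,
then `up z ∉ Z` so `p ≠ r` (`hr`), so `p ≥ r+1`, `g' = sh g` with `g = (j, p-1, t)` valid,
`tl g = dn (tl g') = dn (up z) = z` (`hdn`, `dnup`), `ed g ≠ ed d`, hence `hd g ∈ far d`, `hd g ∉ Z` and
`hd g' = up (hd g)` (`hup`, as `p < l`), in `T`. So `far (sh d) ⊆ T` (`Conn.mem_of_closed`), but
`T ∩ Z = ∅`; so `sh d` is light, contradiction.
(2) Let `d`, `sh d` be valid, `sh d` light and `d` not light: there is `z ∈ far (sh d)` with `z ∈ bdD`.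
Same proof with `dn` (`T = dn '' far (sh d)`; an edge `g` at `dn z ∉ Z`, `g = (j, p, t)`, `tl g = dn z`:
`p ≠ l - 1` by `hl`, so `sh g` is valid, `tl (sh g) = up (tl g) = up (dn z) = z` by `hup, updn`, ...).
(3) Count: each `d ∈ SC` of type (1) is in `{light d | z ∈ far d}` for some `z ∈ bdU`: at most `I * D`
darts; type (2): `sh d` is in `{light f | z ∈ far f}` for some `z ∈ bdD`: at most `I * D` darts (`sh` is
injective). (`Finset.card_biUnion_le_card_mul` or `card_le_mul_card_image`.) -/
def S_status : Prop := ∀ (V ι : Type) [Fintype V] [Fintype ι] (G : SF V ι) (D I : ℕ),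
  (∀ x : V, (G.darts.filter (fun d => G.light d ∧ x ∈ G.far d)).card ≤ D) →
  G.bdU.card ≤ I → G.bdD.card ≤ I → G.SC.card ≤ 2 * I * D

/-- **AB6.** Number of bad darts.
*Proof.* Let `d` be valid with `sh d` valid and `v = hd d = pt s i o`, `v' = hd (sh d) = pt s i (o+1)`.
Claim: `¬ Par d` implies that one of: `d ∈ SC`; `rev d ∈ SC`; `v ∈ bdU`; `v' ∈ bdD`; there is `f ∈ SC` with
`tl f = v`. Suppose none of these. Then `core d ↔ core (sh d)`. If they are not core, or if
`v, v' ∈ Z`, there is no `Nx d f` and no `Nx (sh d) f'`, so `Par d`. If `v ∉ Z`: `up v = v'` (`hup`), so `v' ∉ Z`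
(else `v ∈ bdU`). If `v ∈ Z` and `v' ∉ Z`: `dn v' = v ∈ Z` (`hdn`), so `v' ∈ bdD`, excluded. So `v, v' ∉ Z`,
`up v = v'`, `dn v' = v`. Outgoing darts: `g` valid with `tl g = v` iff (`sh g` valid and `tl (sh g) = v'`), and every
valid `g'` with `tl g' = v'` is `sh g` for a valid `g` with `tl g = v` (offset of `g'` is `> r` because
`v' ∉ Z`, `hr`; offset of `g` is `< l-1` because `v ∉ Z`, `hl`; `hup, hdn, dnup`), and then
`light g ↔ light (sh g)` as `g ∉ SC`. Now let `Nx d f`. Then `tl (sh f) = v'`, `sh f` valid and not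
light, `sh f ≠ rev (sh d)`, `v' ∉ Z`, and every heavy `g' = sh g` outgoing from `v'` has `g` heavy, so
`g = f` or `g = rev d`. It remains that `rev (sh f)` is not light (needed for `core (sh f)`): `rev (sh d)` is a
heavy dart outgoing from `v' = tl (sh f)`, different from `sh f` and its edge is different from `ed (sh f)`
(if `ed` equal then `rev (sh d) = sh f` or `rev (sh d) = rev (sh f)`; the second gives `hd`..., i.e. `d = f`,
`tl f = hd f` contradicting `tl_not_mem_far`), so with `h := rev (sh d)`, `k := rev (sh f)`: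
`tl h = hd k ∈ far k`, and `hd k ∉ far h` because `hd k = tl h`; so `nest` gives `far h ⊆ far k`, and `h`
heavy implies `k` heavy. The second half of `Par` is the same argument downwards.
Count: every vertex is the head (tail) of at most `2 * card ι * Nd` valid darts. So
`card Bad ≤ 2 * card SC + 2 * I * (2 * n * Nd) + card SC * (2 * n * Nd)`. -/
def S_bad : Prop := ∀ (V ι : Type) [Fintype V] [Fintype ι] (G : SF V ι) (Nd I c : ℕ),
  G.DegLe Nd → G.bdU.card ≤ I → G.bdD.card ≤ I → G.SC.card ≤ c →
  G.Bad.card ≤ 2 * c + 2 * I * (2 * Fintype.card ι * Nd) + c * (2 * Fintype.card ι * Nd)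

/-- **AB7.** Number of breaks. *Proof.* If `(i, k) ∈ Brk` then `(i, k+1) ∈ Mk`, or the core status changes, so
(`core` is invariant under `rev`) `(i,k,false) ∈ SC` or `(i,k,true) ∈ SC`, i.e. `(i,k) ∈ SC.image ed`. -/
def S_brk : Prop := ∀ (V ι : Type) [Fintype V] [Fintype ι] (G : SF V ι),
  G.Brk.card ≤ G.Mk.card + G.SC.card

/-- **AB8.** (no pump) Along a chain, between two visits to the same cell in the same direction there is
a visit to the same band at an offset strictly between.
*Proof.* Let `q < q' ≤ m`, `d q = (i, o, s)`, `d q' = (i, o', s)`, same `cid`.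
(a) Nesting: if `Nx e f` then `far f ⊆ far e` and `hd e ∉ far f` (`hd e = tl f`; `ed f ≠ ed e` because
`f ≠ rev e` and `f ≠ e` (as `tl e ≠ hd e`); `tl f = hd e ∈ far e`; use `nest`). So `far (d t)` is
decreasing in `t`, and `hd (d t) ∉ far (d t')` for `t < t' ≤ m`, `tl (d t') = hd (d (t'-1)) ∈ far (d t)`
for `t < t'`; in particular `o ≠ o'`.
(b) `T := far (d q) \ far (d q')` is disjoint from `Z`: let `x ∈ T`, `t ∈ [q, q')` with
`x ∈ far (d t) \ far (d (t+1))`. By `far_cases` `x = hd (d t) ∉ Z`, or `x ∈ far g`, `tl g = hd (d t)`,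
`ed g ≠ ed (d t)`; `g` heavy would give `g = d (t+1)` (by `Nx`), contradiction, so `g` is light and `x ∉ Z`.
(c) Let `y = 1_T`. It is constant along edges other than `ed (d q), ed (d q')`; `y (hd (d q)) = 1`,
`y (tl (d q)) = 0` (not in `far (d q)`), `y (hd (d q')) = 0`, `y (tl (d q')) = 1`. Markers: `cid` equal at
`o, o'` means there is no break `(i,k)`, `min ≤ k < max`, so no marker `(i,k+1)`, and all edges `(i,k)`,
`k` between `o` and `o'`, are core (as `(i,o)` is core, induction on `k`).
By `NoPump` there must be `k` strictly between `o` and `o'` with an end of `(i,k)` in `T`; as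
`T` is closed under the edge `(i,k)`, both ends are in `T`.
(d) `(i,k)` is core with both ends in `T`. Let `t ∈ [q, q')` be maximal with both ends in `far (d t)`. If
`(i,k) = ed (d (t+1))` then `t+1 < q'` (as `k ≠ o'`) and we are done with `q'' = t+1`. Otherwise
`far (d (t+1))` is closed under `(i,k)` and (by maximality, or by definition of `T` if `t+1=q'`) it contains
none of the two ends. By `far_cases` each of the two ends is `v := hd (d t)` or in `far g` with `g ≠ d (t+1)`
outgoing from `v`, `ed g ≠ ed (d t)`, so `g` light. They cannot both be `v` (`tl_not_mem_far`). So some end is in `far g`, `g` light. If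
`(i,k) = ed g`, then `g` is light, contradicting core. If not, both ends are in `far g` and by
`dich`, `nest` one of the darts `g'` of `(i,k)` has `far g' ⊆ far g`, so `g'` is light, contradicting core. -/
def S_chainSame : Prop := ∀ (V ι : Type) [Fintype V] [Fintype ι] (G : SF V ι), G.NoPump →
  ∀ (d : ℕ → Dart ι) (m : ℕ), G.IsChain d m → ∀ q q' : ℕ, q < q' → q' ≤ m →
  (d q).1 = (d q').1 → (d q).2.2 = (d q').2.2 → G.cid (d q).1 (d q).2.1 = G.cid (d q').1 (d q').2.1 →
  ∃ q'', q < q'' ∧ q'' < q' ∧ (d q'').1 = (d q).1 ∧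
    min (d q).2.1 (d q').2.1 < (d q'').2.1 ∧ (d q'').2.1 < max (d q).2.1 (d q').2.1

/-- **AB9.** Pure combinatorics: a sequence of visits `x 0, …, x (w-1)` with sides, such that between two
visits with the same side there is (in time) a visit with value strictly between. Then consecutive
visits have different sides and the sequence is strictly monotone or strictly antitone.
*Proof.* Consecutive `j, j+1`: same side is impossible (no `j''` between). So sides alternate, `j` and
`j+2` have the same side, and the only visit between is `j+1`: `x (j+1)` is strictly between `x j` and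
`x (j+2)`. So all differences `x (j+1) - x j` have the same sign. -/
def S_mono : Prop := ∀ (w : ℕ) (x : ℕ → ℕ) (s : ℕ → Bool),
  (∀ j j', j < j' → j' < w → x j ≠ x j') →
  (∀ j j', j < j' → j' < w → s j = s j' → ∃ k, j < k ∧ k < j' ∧ min (x j) (x j') < x k ∧
    x k < max (x j) (x j')) →
  (∀ j, j + 1 < w → s (j + 1) = !(s j)) ∧
  ((∀ j j', j < j' → j' < w → x j < x j') ∨ (∀ j j', j < j' → j' < w → x j' < x j))

/-- `h`-fold iteration of the successor relation -/
def SF.NxI {V ι : Type} (G : SF V ι) : ℕ → Dart ι → Dart ι → Prop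
  | 0, d, f => d = f
  | h + 1, d, f => ∃ g, SF.NxI G h d g ∧ G.Nx g f

/-- the `h`-th image of the interval of darts `(i, lo + k, σ)`, `k ≤ δ`, is the interval
`(β, p + k, τ)`, `k ≤ δ` -/
def SF.Fam {V ι : Type} (G : SF V ι) (h : ℕ) (i : ι) (lo δ : ℕ) (σ : Bool) (β : ι) (p : ℕ)
    (τ : Bool) : Prop := ∀ k ≤ δ, G.NxI h (i, lo + k, σ) (β, p + k, τ)

/-- **AB10a (first break).** Two visits `d s`, `d t` (`s < t`) of a chain to the same band in opposite
directions at different offsets: the parallel family between them breaks before the middle.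
*Proof.* Facts: `Nx d f → Nx (rev f) (rev d)` (the heavy darts outgoing from `hd (rev f) = tl f = hd d` are
`f = rev (rev f)` and `rev d`; `core_rev`); `Nx` is deterministic (`Nx d f`, `Nx d f'`: `f'` is heavy and outgoing from
`hd d`, so `f' = f` or `f' = rev d`).
Let `i` be the band, `σ` the side of `d s`, `lo` and `lo + δ` the smaller and the larger offset, `δ > 0`,
`ε ∈ {0, δ}` with `d s = (i, lo + ε, σ)` and `ε' = δ - ε`, so `rev (d t) = (i, lo + ε', σ)`.
Suppose the conclusion is false. Claim: for every `h` with `s + 2 h ≤ t + 1` there are `β p τ` with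
`Fam h i lo δ σ β p τ`, `d (s + h) = (β, p + ε, τ)` and `rev (d (t - h)) = (β, p + ε', τ)`. Induction on `h`;
`h = 0` is clear. Step: let `s + 2 (h + 1) ≤ t + 1`, so `s + h < t - h`. All darts `(β, p + k, τ)`, `k ≤ δ`, are valid (for
`h = 0` they lie between two valid darts, for `h > 0` they are targets of `Nx`, so core). As `h` is not a break level
(and all levels `≤ h` are parallel), `(β, p + k, τ) ∉ Bad`, i.e. `Par (β, p + k, τ)`, for all `k < δ`.
`Nx (d (s+h)) (d (s+h+1))` holds, at the end `ε`. If `ε = 0`: with `d (s+h+1) = (β', p', τ')` the first half of `Par` gives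
inductively `Nx (β, p + k, τ) (β', p' + k, τ')` for `k ≤ δ`. If `ε = δ`: the second half of `Par` gives, downwards,
the same with `d (s+h+1) = (β', p' + δ, τ')`. So `Fam (h+1)`. At the other end `ε'`: `Nx (rev (d (t-h))) (rev (d (t-h-1)))`
by reversal, and determinism gives `rev (d (t-h-1)) = (β', p' + ε', τ')`.
Now let `h` with `s + 2 h = t` or `s + 2 h = t + 1` (so `h ≥ 1`). If `s + 2h = t` then `d (s+h)` and `rev (d (t-h)) =
rev (d (s+h))` have the same side `τ`: impossible. If `s + 2 h = t + 1`: `t - h = s + h - 1`, level `h`: `d (s+h) = (β, p + ε, τ)`,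
`rev (d (s+h-1)) = (β, p + ε', τ)`; level `h - 1`: `d (s+h-1) = (β', p' + ε, τ')`, `rev (d (s+h)) = (β', p' + ε', τ')`
(`t - (h-1) = s + h`). Offsets: `p + ε = p' + ε'`, `p + ε' = p' + ε`, so `ε = ε'`, contradiction to `δ > 0`. -/
def S_firstBreak : Prop := ∀ (V ι : Type) [Fintype V] [Fintype ι] (G : SF V ι)
  (d : ℕ → Dart ι) (m : ℕ), G.IsChain d m → ∀ (s t : ℕ) (i : ι) (lo δ : ℕ) (σ : Bool), s < t → t ≤ m →
  0 < δ →
  ((d s = (i, lo, σ) ∧ d t = (i, lo + δ, !σ)) ∨ (d s = (i, lo + δ, σ) ∧ d t = (i, lo, !σ))) →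
  ∃ h, s + h < t - h ∧
    (∀ h' ≤ h, ∃ β p τ, G.Fam h' i lo δ σ β p τ) ∧
    ∃ β p τ k, G.Fam h i lo δ σ β p τ ∧ k < δ ∧ (β, p + k, τ) ∈ G.Bad

/-- **AB10b (chain bound).** `hsame` is the conclusion of AB8. The chain has at most
`card ι * (card Brk + 1) * (card Bad + 1)` darts.
*Proof.* Facts: `Nx d f → Nx (rev f) (rev d)`; `Nx` is deterministic and injective (see AB10a); hence so is `NxI h`,
and `NxI (g + h) D X` with `NxI h D' X` gives `NxI g D D'`.
(a) If `Nx e f` then `far f ⊆ far e` and `hd e ∉ far f` (`hd e = tl f`; `ed f ≠ ed e` because `f ≠ rev e` and `f ≠ e` (as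
`tl e ≠ hd e`); `nest`). So for `q < q' ≤ m`: `far (d q') ⊆ far (d q)`, `hd (d q) ∉ far (d q')`; hence `ed (d q) ≠ ed (d q')`
(`d q' = d q` contradicts `hd (d q) ∉ far (d q')`; `d q' = rev (d q)` gives `tl (d q) = hd (d q') ∈ far (d q)`, contradiction).
(b) For a cell `κ = (i, c)` let `Vis κ = {q ≤ m | (d q).1 = i ∧ cid i (d q).2.1 = c}`. As `cid ≤ card Brk`, there are at most
`card ι * (card Brk + 1)` cells; it suffices to show `card (Vis κ) ≤ card Bad + 1` (`Finset.card_le_mul_card_image`).
(c) Let `q_0 < … < q_{w-1}` be the elements of `Vis κ` (`Finset.orderEmbOfFin` or `Nat.nth`-like enumeration), `x_j`, `s_j`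
offset and side of `d (q_j)`. The `x_j` are distinct by (a). `cid i` is monotone in the offset. For `j < j'` with `s_j = s_j'`
`hsame` gives `q''` between with offset strictly between, so `cid i (offset) = c`, `q'' ∈ Vis κ`: hypothesis of `S_mono`. So the
sides alternate and `x` is strictly monotone (increasing or decreasing).
(d) For `j + 1 < w` apply `S_firstBreak` to `s = q_j`, `t = q_{j+1}`, `lo_j = min (x_j, x_{j+1})`, `δ_j = |x_{j+1} - x_j|`, `σ_j = s_j`: get
`h_j` and `X_j = (β, p + k_j, τ) ∈ Bad`, `k_j < δ_j`, with `NxI h_j (i, lo_j + k_j, σ_j) X_j`. Claim: `j ↦ X_j` is injective (then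
`w - 1 ≤ card Bad`). Suppose `X_j = X_j'`, `j ≠ j'`, `h_j ≤ h_j'`. Put `g = h_j' - h_j`, `D = (i, lo_j + k_j, σ_j)`,
`D' = (i, lo_j' + k_j', σ_j')`. By injectivity `NxI g D' D`. If `g = 0`: `D = D'`, but the intervals `[lo_j, lo_j + δ_j)` and
`[lo_j', lo_j' + δ_j')` are disjoint by monotonicity of `x`. Contradiction. If `g ≥ 1`: `g ≤ h_j'`, so there is a family
`Fam g i lo_j' δ_j' σ_j' β' p' τ'`; by determinism (at `k = k_j'`) `(β', p' + k_j', τ') = D`, so `β' = i`, `p' + k_j' = lo_j + k_j`.
Let `s' = q_j'`, `t' = q_{j'+1}`. `NxI g (d s') (d (s'+g))`, `NxI g (rev (d t')) (rev (d (t'-g)))`, and `d s'`, `rev (d t')` are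
`(i, lo_j', σ_j')`, `(i, lo_j' + δ_j', σ_j')` in some order. So `d (s'+g)`, `rev (d (t'-g))` are `(i, p', τ')`, `(i, p' + δ_j', τ')` in
some order. `s' < s' + g < t' - g < t'` (from `s' + h_j' < t' - h_j'`), and `q_j'`, `q_{j'+1}` are consecutive elements of `Vis κ`, so
`cid i p' ≠ c`, `cid i (p' + δ_j') ≠ c`. But `p' ≤ lo_j + k_j ≤ p' + δ_j'` and `cid i (lo_j + k_j) = c` (it lies between `x_j` and
`x_{j+1}`), so `cid i p' < c < cid i (p' + δ_j')`. As `cid i lo_j' = c = cid i (lo_j' + δ_j')`, monotonicity gives `p' < lo_j'` and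
`lo_j' + δ_j' < p' + δ_j'`. Contradiction. -/
def S_chainBound : Prop := S_mono → S_firstBreak → ∀ (V ι : Type) [Fintype V] [Fintype ι] (G : SF V ι)
  (d : ℕ → Dart ι) (m : ℕ), G.IsChain d m →
  (∀ q q' : ℕ, q < q' → q' ≤ m →
    (d q).1 = (d q').1 → (d q).2.2 = (d q').2.2 → G.cid (d q).1 (d q).2.1 = G.cid (d q').1 (d q').2.1 →
    ∃ q'', q < q'' ∧ q'' < q' ∧ (d q'').1 = (d q).1 ∧
      min (d q).2.1 (d q').2.1 < (d q'').2.1 ∧ (d q'').2.1 < max (d q).2.1 (d q').2.1) →
  m + 1 ≤ Fintype.card ι * (G.Brk.card + 1) * (G.Bad.card + 1)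

/-- **AB11.** Forests have at most as many edges as vertices.
*Proof.* Induction on `T`: strengthen to: for every finite `K` containing all endpoints and every finite
forest `T`, `T.card ≤ K.card`; e.g. show that the number of `Conn T`-classes in `K` plus `T.card` is
`K.card`; or: remove an edge `f` from `T`; contract. Alternative: linear algebra over `ℚ`: for `e ∈ T` the indicator
function `θ_e` of `{x | Conn (T \ {e}) (src e) x}` restricted to `K` has `θ_e (src e') - θ_e (dst e') = δ_{e e'}`
for `e, e' ∈ T`, so the functions `θ_e : K → ℚ` are linearly independent, so `T.card ≤ K.card`. -/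
def S_forestCard : Prop := ∀ (V ε : Type) (src dst : ε → V) (T : Finset ε) (K : Finset V),
  (∀ e ∈ T, src e ∈ K ∧ dst e ∈ K) →
  (∀ e ∈ T, ¬ Conn src dst ((T : Set ε) \ {e}) (src e) (dst e)) → T.card ≤ K.card

/-- **AB12.** (hair distance) `hfree` is AB1, `hD` is AB4. Every vertex is at distance `≤ D` from `K`, so
`card V ≤ (1 + Δ)^D * card K` with `Δ = 2 * card ι * Nd`.
*Proof.* Let `v ∉ K`: `v ∉ Z`; there is a heavy outgoing dart at `v` (otherwise by `comp_cases` the component of
`v` avoids `Z`, contradicting `hfree`), and exactly one (as `v ∉ K`), call it `h v`. Then `rev (h v)` is light: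
by `far_cases` a point of `far (rev (h v))` is `v` or in `far g` with `g` outgoing from `v`, `g ≠ h v`, so
light. Define `v_0 = v`, `v_{j+1} = hd (h v_j)` as long as `v_j ∉ K`. `h v_{j+1} ≠ rev (h v_j)` since the
latter is light; so `far (rev (h v_j)) ⊂ far (rev (h v_{j+1}))` strictly (`nest`: `tl (rev (h v_j)) = v_{j+1} =
hd (rev (h v_{j+1}))`, and `hd (rev (h v_{j+1})) = v_{j+1} ∉ far (rev (h v_j))` by `tl_not_mem_far`). All
`rev (h v_j)` are light darts containing `v` in their far side, and distinct; so at most `D` of them. So `v_j ∈ K` for some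
`j ≤ D`. Let `B_0 = K`, `B_{j+1} = B_j ∪ {tl f | f valid, hd f ∈ B_j}`; `card B_{j+1} ≤ (1 + Δ) card B_j` and
`B_D` is everything. -/
def S_hair : Prop := ∀ (V ι : Type) [Fintype V] [Fintype ι] (G : SF V ι) (Nd D : ℕ),
  G.DegLe Nd → (∀ v : V, ∃ z ∈ G.Z, G.C G.E v z) →
  (∀ x : V, (G.darts.filter (fun d => G.light d ∧ x ∈ G.far d)).card ≤ D) →
  Fintype.card V ≤ (1 + 2 * Fintype.card ι * Nd) ^ D * (G.K).card

/-- **AB13.** (core count) `hfc` is AB11, `hch`: every chain has at most `m'` darts. Then
`card K ≤ (1 + 3 * m') * card Z`.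
*Proof.* Let `𝒟` be the finite set of core darts. (1) Tail (and head) of a core dart `d` is in `K`:
`rev d` is heavy: take `x ∈ far (rev d) ∩ Z`; by `far_cases` `x = hd (rev d) = tl d ∈ Z`, or `x ∈ far g`, `g` outgoing from
`tl d`, `ed g ≠ ed d`, `g` heavy: so `d, g` are two heavy outgoing darts at `tl d`. (2) A heavy valid dart `d`
with `tl d ∈ K` is core: if `tl d ∈ Z` then `tl d ∈ far (rev d)` shows `rev d` heavy; otherwise there is another
heavy `g` outgoing from `tl d`, `g ≠ d`, `ed g ≠ ed d`, and `far g ⊆ far (rev d)` by `nest`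
(`tl g = hd (rev d)`). (3) So for `v ∈ K \ Z` the number `k(v)` of core darts with tail `v` is `≥ 2`. (4) The core edges
(`E_c = 𝒟.image ed`, `2 * card E_c = card 𝒟`) form a forest on `K`: AB11 gives `card E_c ≤ card K`. (5) Let
`K₂ = {v ∈ K \ Z | k(v) = 2}`, `K₃ = {v ∈ K \ Z | k(v) ≥ 3}`. `card 𝒟 = ∑_{v ∈ K} k(v) ≥ 2 K₂ + 3 K₃` and
`card 𝒟 ≤ 2 (Z + K₂ + K₃)`, so `K₃ ≤ 2 Z`, and the number `τ` of core darts with head (equivalently, by `rev`, tail) in `Z ∪ K₃` is
`card 𝒟 - 2 K₂ ≤ 2 Z + 2 K₃ ≤ 6 Z`. (6) If `hd d ∈ K₂` for a core dart `d` there is a (unique) `f` with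
`Nx d f` (the two core darts outgoing from `hd d` are `rev d` and `f`; every heavy dart outgoing from `hd d` is core by (2)). `Nx` is injective: `Nx d f`, `Nx d' f` imply `d = d'`
(`rev d'` is heavy outgoing from `hd d = tl f`, so `rev d' = f` or `rev d' = rev d`; the first contradicts `f ≠ rev d'`).
(7) Starting at any core dart and applying `Nx`, we get a chain; it has at most `m'` darts, so it reaches
a dart with head in `Z ∪ K₃` after fewer than `m'` steps. By injectivity `card 𝒟 ≤ m' * τ ≤ 6 m' Z` (the `j`-th preimages, `j < m'`, of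
the terminal darts). (8) `card K ≤ Z + K₂ + K₃ ≤ Z + card 𝒟 / 2 ≤ (1 + 3 m') Z`. -/
def S_core : Prop := ∀ (V ι : Type) [Fintype V] [Fintype ι] (G : SF V ι) (m' : ℕ),
  S_forestCard → (∀ (d : ℕ → Dart ι) (m : ℕ), G.IsChain d m → m + 1 ≤ m') →
  (G.K).card ≤ (1 + 3 * m') * G.Z.card

/-- **Abstract theorem (AT).** -/
def S_AT : Prop := ∀ n Nd M I : ℕ, ∃ F : ℕ, ∀ (V ι : Type) [Fintype V] [Fintype ι] (G : SF V ι),
  Fintype.card ι ≤ n → G.DegLe Nd → G.Mk.card ≤ M → G.bdU.card ≤ I → G.bdD.card ≤ I →
  (∃ y, G.IsPump y) ∨ Fintype.card V ≤ F * G.Z.card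

/-- Assembly of the abstract theorem. -/
theorem AT_of (h1 : S_free) (h4 : S_depth) (h5 : S_status) (h6 : S_bad) (h7 : S_brk)
    (h8 : S_chainSame) (h9 : S_mono) (h10a : S_firstBreak) (h10 : S_chainBound) (h11 : S_forestCard) (h12 : S_hair) (h13 : S_core) :
    S_AT := by
  intro n Nd M I
  let D := n * (M + 1)
  let c := 2 * I * D
  let bad := 2 * c + 2 * I * (2 * n * Nd) + c * (2 * n * Nd)
  let m' := n * (M + c + 1) * (bad + 1)
  refine ⟨(1 + 2 * n * Nd) ^ D * (1 + 3 * m'), ?_⟩
  intro V ι _ _ G hn hdeg hM hU hD'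
  by_cases hp : ∃ y, G.IsPump y
  · exact Or.inl hp
  right
  have hNP : G.NoPump := fun y hy => hp ⟨y, hy⟩
  have hdepth : ∀ x : V, (G.darts.filter (fun d => G.light d ∧ x ∈ G.far d)).card ≤ D :=
    fun x => (h4 V ι G hNP x).trans (Nat.mul_le_mul hn (Nat.add_le_add_right hM 1))
  have hSC : G.SC.card ≤ c := h5 V ι G D I hdepth hU hD'
  have hbad : G.Bad.card ≤ bad := by
    refine (h6 V ι G Nd I c hdeg hU hD' hSC).trans ?_
    have : 2 * Fintype.card ι * Nd ≤ 2 * n * Nd :=
      Nat.mul_le_mul (Nat.mul_le_mul le_rfl hn) le_rfl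
    exact Nat.add_le_add (Nat.add_le_add le_rfl (Nat.mul_le_mul le_rfl this))
      (Nat.mul_le_mul le_rfl this)
  have hbrk : G.Brk.card ≤ M + c := (h7 V ι G).trans (Nat.add_le_add hM hSC)
  have hch : ∀ (d : ℕ → Dart ι) (m : ℕ), G.IsChain d m → m + 1 ≤ m' := by
    intro d m hdm
    refine (h10 h9 h10a V ι G d m hdm ?_).trans ?_
    · exact h8 V ι G hNP d m hdm
    · exact Nat.mul_le_mul (Nat.mul_le_mul hn (Nat.add_le_add_right hbrk 1))
        (Nat.add_le_add_right hbad 1)
  have hK := h13 V ι G m' h11 hch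
  have hV := h12 V ι G Nd D hdeg (h1 V ι G hNP) hdepth
  have h2 : (1 + 2 * Fintype.card ι * Nd) ^ D ≤ (1 + 2 * n * Nd) ^ D :=
    Nat.pow_le_pow_left (Nat.add_le_add_left (Nat.mul_le_mul (Nat.mul_le_mul le_rfl hn) le_rfl) 1) D
  calc Fintype.card V ≤ (1 + 2 * Fintype.card ι * Nd) ^ D * (G.K).card := hV
    _ ≤ (1 + 2 * n * Nd) ^ D * ((1 + 3 * m') * G.Z.card) := Nat.mul_le_mul h2 hK
    _ = (1 + 2 * n * Nd) ^ D * (1 + 3 * m') * G.Z.card := by ring

end H724.WE
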