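import Pool.Agent.H724.WE.SFStm

/-!
# Project WE (helper724), layer 2: words with bands

`W : ℕ → α` a word of length `L` (letters `W 0, …, W (L-1)`, cut points `0, …, L`), bands
`(a i, b i, m i)`, `i : Fin n`: `W (a i + k) = W (b i + k)` for `k < m i`.
-/

namespace H724.WE

open Finset
open scoped Classical

/-- `infl W u K y p t`: the inflated factor `[p, p+t)`: before the letter at position `q` insert
`u ^ (K * y q)`. -/
def infl {α : Type} (W : ℕ → α) (u : List α) (K : ℕ) (y : ℕ → ℕ) (p t : ℕ) : List α :=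
  (List.range t).flatMap (fun k => (List.replicate (K * y (p + k)) u).flatten ++ [W (p + k)])

/-- no `N`-th power inside `[0, L)`: no factor of length `N * g` with period `g > 0` -/
def NoPow {α : Type} (W : ℕ → α) (L N : ℕ) : Prop :=
  ∀ p g, 0 < g → p + N * g ≤ L → ¬ ∀ x, x + g < N * g → W (p + x) = W (p + x + g)

/-- edge endpoints on cut points -/
def sa {n : ℕ} (a : Fin n → ℕ) (e : Fin n × ℕ) : ℕ := a e.1 + e.2

/-- **WD1 (Kruskal).** Order the edges `(i, o)`, `o ≤ m i`, by priority: larger offset first, ties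
by smaller band index. Call an edge *kept* if its two ends are not connected by edges of higher priority.
(1) If `(i, o+1)` is rejected, `o + 1 ≤ m i`, then `(i, o)` is rejected: shift the connection down by one
(`Conn.map` with `x ↦ x - 1`; all edges used have offset `≥ o+1 ≥ 1`). So the kept offsets of band `i`
form an interval `[c i, m i]` (`c i = m i + 1` if none is kept).
(2) For every edge `(i, o)`: `Conn (all edges of higher priority) x y → Conn (kept edges of higher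
priority) x y` (induction on priority / well-founded induction on `(m_max - o, i)`; every rejected edge
is replaced by a connection of edges of higher priority). Hence the third statement.
(3) The kept edges form a forest: every finite set `T` of kept edges satisfies
`∀ e ∈ T, ¬ Conn (T \ {e}) (ends of e)`: add the edges in order of decreasing priority, using
`Conn.insert_iff`; (a `Conn` uses finitely many edges, and anyway the set of all kept edges is finite). -/
def S_kruskal : Prop := ∀ (n : ℕ) (a b m : Fin n → ℕ), ∃ c : Fin n → ℕ,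
  (∀ i, c i ≤ m i + 1) ∧
  (∀ i o, c i ≤ o → o ≤ m i → ¬ Conn (sa a) (sa b)
      ({e | c e.1 ≤ e.2 ∧ e.2 ≤ m e.1} \ {(i, o)}) (a i + o) (b i + o)) ∧
  (∀ i o, o < c i → o ≤ m i → Conn (sa a) (sa b)
      {e | c e.1 ≤ e.2 ∧ e.2 ≤ m e.1 ∧ (o < e.2 ∨ (e.2 = o ∧ e.1 < i))} (a i + o) (b i + o))

/-- **WD2 (scales).** Pigeonhole: the `card κ + 1` intervals `[ρ^k, ρ^(k+1))`, `k ≤ card κ`, are disjoint,
so one of them contains none of the numbers `f x`. -/
def S_scale : Prop := ∀ (κ : Type) [Fintype κ] (f : κ → ℕ) (ρ : ℕ), 1 ≤ ρ →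
  ∃ k ≤ Fintype.card κ, ∀ x, f x < ρ ^ k ∨ ρ ^ (k + 1) ≤ f x

/-- **WD3 (powers).** Many occurrences of a word of length `t` within a range of length `t`.
*Proof.* If `P.card ≥ N + 1`, two consecutive elements `p < q` of `P` have distance
`g = q - p ≤ (t-1)/N`, i.e. `N * g ≤ t - 1` (the sum of the `≥ N` gaps is `< t`). Then `W (p + x) = W (q + x) =
W (p + g + x)` for `x < t`, and `p + N * g ≤ p + t ≤ L`: contradiction to `NoPow`.
(For `N = 0` `NoPow` is false as soon as `P` is nonempty.) -/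
def S_power : Prop := ∀ (α : Type) (W : ℕ → α) (L N t : ℕ) (P : Finset ℕ) (p0 : ℕ),
  NoPow W L N → 0 < t → (∀ p ∈ P, p0 ≤ p ∧ p < p0 + t ∧ p + t ≤ L) →
  (∀ p ∈ P, ∀ q ∈ P, ∀ x < t, W (p + x) = W (q + x)) → P.card ≤ N

/-- The data: a word with bands, special points `S`, Kruskal thresholds `c`, and a scale window
`[r, 2 l)` containing no `m i` and no `c i`. -/
structure Dat (α : Type) where
  n : ℕ
  a : Fin n → ℕ
  b : Fin n → ℕ
  m : Fin n → ℕ
  c : Fin n → ℕ
  W : ℕ → α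
  L : ℕ
  S : Finset ℕ
  r : ℕ
  l : ℕ
  zero_mem : 0 ∈ S
  L_mem : L ∈ S
  a_mem : ∀ i, a i ∈ S
  b_mem : ∀ i, b i ∈ S
  am_mem : ∀ i, a i + m i ∈ S
  bm_mem : ∀ i, b i + m i ∈ S
  S_le : ∀ q ∈ S, q ≤ L
  band : ∀ i k, k < m i → W (a i + k) = W (b i + k)
  forest : ∀ i o, c i ≤ o → o ≤ m i → ¬ Conn (sa a) (sa b)
      ({e | c e.1 ≤ e.2 ∧ e.2 ≤ m e.1} \ {(i, o)}) (a i + o) (b i + o)
  red : ∀ i o, o < c i → o ≤ m i → Conn (sa a) (sa b)
      {e | c e.1 ≤ e.2 ∧ e.2 ≤ m e.1 ∧ (o < e.2 ∨ (e.2 = o ∧ e.1 < i))} (a i + o) (b i + o)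
  r_pos : 1 ≤ r
  r_lt : r + 2 ≤ l
  l_le : l ≤ L
  m_cases : ∀ i, m i < r ∨ 2 * l ≤ m i
  c_cases : ∀ i, c i ≤ r ∨ 2 * l ≤ c i

namespace Dat

variable {α : Type} (X : Dat α)

/-- long bands -/
def long (i : Fin X.n) : Prop := 2 * X.l ≤ X.m i
/-- tree bands: long, with all edges of offsets in `[r, m i]` kept -/
def tree (i : Fin X.n) : Prop := 2 * X.l ≤ X.m i ∧ X.c i ≤ X.r
/-- redundant bands: long, with no kept edge of offset `< 2 l` -/
def redu (i : Fin X.n) : Prop := 2 * X.l ≤ X.m i ∧ 2 * X.l ≤ X.c i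

/-- cut point on side `s` of band `i` at offset `o` -/
def cp (s : Bool) (i : Fin X.n) (o : ℕ) : ℕ := if s then X.b i + o else X.a i + o

/-- edges of offset `≥ l` (of all bands) -/
def El : Set (Fin X.n × ℕ) := {e | X.l ≤ e.2 ∧ e.2 ≤ X.m e.1}

/-- connectivity of cut points by the edges of offset `≥ l` -/
def eqv (x y : ℕ) : Prop := Conn (sa X.a) (sa X.b) X.El x y

/-- marker: the window of length `l` at offset `k` of band `i` equals the window of length `l` at
offset `r` of some redundant band -/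
def mark (i : Fin X.n) (k : ℕ) : Prop :=
  ∃ i0, X.redu i0 ∧ ∀ x < X.l, X.W (X.a i + k + x) = X.W (X.a i0 + X.r + x)

/-- the marked cut points: specials, points of short bands, points of long bands at offsets `≤ r` and
at offsets `l - 1`, `l` -/
noncomputable def Z0 : Finset ℕ :=
  (Finset.range (X.L + 1)).filter (fun q => q ∈ X.S ∨
    (∃ i s o, X.m i < X.r ∧ o ≤ X.m i ∧ q = X.cp s i o) ∨
    (∃ i s o, X.long i ∧ (o ≤ X.r ∨ o = X.l - 1 ∨ o = X.l) ∧ q = X.cp s i o))

/-- setoid on the cut points `0, …, L` -/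
def stp : Setoid (Fin (X.L + 1)) where
  r x y := X.eqv x y
  iseqv := ⟨fun _ => Conn.refl _, fun h => Conn.symm h, fun h h' => Conn.trans h h'⟩

/-- the vertex type -/
def V : Type := Quotient X.stp

/-- the class of a cut point (`min` with `L` to be total) -/
def cls (q : ℕ) : X.V := Quotient.mk X.stp ⟨min q X.L, Nat.lt_succ_of_le (Nat.min_le_right _ _)⟩

noncomputable instance : Fintype X.V := by
  unfold V; exact Quotient.fintype _

/-- the tree bands as a type -/
def ι : Type := {i : Fin X.n // X.tree i}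

noncomputable instance : Fintype X.ι := by
  unfold ι; infer_instance

/-- representative of a class -/
noncomputable def rep (v : X.V) : ℕ := (Quotient.out v).1

/-- shift up -/
noncomputable def up (v : X.V) : X.V := X.cls (X.rep v + 1)
/-- shift down -/
noncomputable def dn (v : X.V) : X.V := X.cls (X.rep v - 1)
/-- endpoints -/
def pt (s : Bool) (i : X.ι) (o : ℕ) : X.V := X.cls (X.cp s i.1 o)
/-- marked classes -/
noncomputable def Z : Finset X.V := X.Z0.image X.cls
/-- markers -/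
noncomputable def Mk : Finset (X.ι × ℕ) :=
  ((univ : Finset X.ι) ×ˢ Finset.Ico X.r X.l).filter (fun e => X.mark e.1.1 e.2)

end Dat

/-- **WD4.** Forest property of the quotient graph.
*Proof.* Let `Ke = {e | c e.1 ≤ e.2 ≤ m e.1}` be the kept edges. First: every edge `(i, o)` with
`l ≤ o ≤ m i` has its ends connected by kept edges of offset `≥ o` (itself if `c i ≤ o`, else `X.red`).
Suppose `cls (a i + o)`, `cls (b i + o)` (`i` tree, `r ≤ o < l`) are connected in the quotient by the edges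
`(j, p)`, `j` tree, `r ≤ p < l`, `≠ (i, o)`. Let `T = Ke \ {(i, o)}`. Show by `Conn.mem_of_closed` with
`C = {v | ∀ q ≤ L, cls q = v → Conn T (a i + o) q}`: if `cls q = cls q'` then `q, q'` are connected by edges of
offset `≥ l`, so by kept edges of offset `≥ l`, all in `T` (as `o < l`); a tree edge `(j, p) ≠ (i, o)` is in `T`
(`c j ≤ r ≤ p ≤ m j`). So `Conn T (a i + o) (b i + o)`, contradiction to `X.forest`. All cut points
involved are `≤ L` (`S_le` for `a i + m i`, `b i + m i`), so `min` disappears. -/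
def S_dForest : Prop := ∀ (α : Type) (X : Dat α) (i : X.ι) (o : ℕ), X.r ≤ o → o < X.l →
  ¬ Conn (fun e : X.ι × ℕ => X.pt false e.1 e.2) (fun e : X.ι × ℕ => X.pt true e.1 e.2)
      ({e | X.r ≤ e.2 ∧ e.2 < X.l} \ {(i, o)}) (X.pt false i o) (X.pt true i o)

/-- **WD5.** Shifts of classes outside `Z`.
Let `q ≤ L` with `cls q ∉ Z`. Then `0 < q < L` (`0, L ∈ S`), and for every `q'` with `eqv q q'`: `eqv (q+1) (q'+1)` and
`eqv (q-1) (q'-1)`: induction (`Conn.mem_of_closed`, `C = {x | eqv q x ∧ eqv (q+1) (x+1) ∧ eqv (q-1) (x-1)}`): an edge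
`e = (i, o)` with `l ≤ o ≤ m i` at a point of the class of `q` has `o ≠ m i` (`a i + m i ∈ S`) and
`o ≠ l` (`a i + l ∈ Z0`, `i` is long because `m i ≥ l > r`), so `(i, o+1)` and `(i, o-1)` are edges of offset `≥ l` too. -/
def S_dShift : Prop := ∀ (α : Type) (X : Dat α) (q q' : ℕ), q ≤ X.L → X.cls q ∉ X.Z → X.eqv q q' →
  0 < q ∧ q < X.L ∧ q' ≤ X.L ∧ X.eqv (q + 1) (q' + 1) ∧ X.eqv (q - 1) (q' - 1)

/-- **WD6.** `S_dShift` gives the shift axioms (everything else is bookkeeping with `cls`, `rep`: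
`cls q = cls q' ↔ eqv q q'` for `q, q' ≤ L`; `cls (rep v) = v`; `eqv (rep (cls q)) q` for `q ≤ L`). -/
def S_dAxioms : Prop := S_dShift → ∀ (α : Type) (X : Dat α),
  (∀ s (i : X.ι), X.pt s i X.r ∈ X.Z) ∧ (∀ s (i : X.ι), X.pt s i (X.l - 1) ∈ X.Z) ∧
  (∀ s (i : X.ι) o, X.r ≤ o → o + 1 < X.l → X.pt s i o ∉ X.Z → X.up (X.pt s i o) = X.pt s i (o + 1)) ∧
  (∀ s (i : X.ι) o, X.r ≤ o → o + 1 < X.l → X.pt s i (o + 1) ∉ X.Z →
    X.dn (X.pt s i (o + 1)) = X.pt s i o) ∧
  (∀ v, v ∉ X.Z → X.up v ∉ X.Z → X.dn (X.up v) = v) ∧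
  (∀ v, v ∉ X.Z → X.dn v ∉ X.Z → X.up (X.dn v) = v)

/-- **WD7.** Degree bound (uses WD3). *Proof.* Let `P' = {o ∈ [r, l) | cls (cp s i o) = v}`. If it has at most one
element we are done (`1 ≤ N` because `NoPow W L 0` is false: take `p = 0, g = 1`). Otherwise all `q = cp s i o`,
`o ∈ P'`, are `eqv` and distinct, so each of them is an endpoint of an edge of offset `≥ l` and `≥ l`; an induction over
`Conn` shows `W (q - l + x) = W (q' - l + x)` for `x < l` (for an edge `(j, p)`, `p ≥ l`: `q = a j + p`, `q' = b j + p`, and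
`W (a j + p - l + x) = W (b j + p - l + x)` by `band` as `p - l + x < p ≤ m j`). Apply WD3 with `t = l`,
`P = {q - l}`, `p0 = cp s i r - l` (natural subtraction is fine as all `q ≥ l`; take `p0 = ` the smallest element). -/
def S_dDeg : Prop := S_power → ∀ (α : Type) (X : Dat α) (N : ℕ), NoPow X.W X.L N →
  ∀ (s : Bool) (i : X.ι) (v : X.V),
    ((Finset.Ico X.r X.l).filter (fun o => X.pt s i o = v)).card ≤ N

/-- **WD8.** Marker bound (uses WD3). *Proof.* For fixed `i` and fixed redundant `i0` the offsets `k ∈ [r, l)` with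
`∀ x < l, W (a i + k + x) = W (a i0 + r + x)` give positions `a i + k` in a range of length `< l` with equal windows of length `l`
(`a i + k + l ≤ a i + m i ≤ L`). So there are at most `N` of them; sum over `i0` and `i`. -/
def S_dMark : Prop := S_power → ∀ (α : Type) (X : Dat α) (N : ℕ), NoPow X.W X.L N →
  X.Mk.card ≤ X.n * X.n * N

/-- **WD9.** Boundary of `Z` (uses WD5).
*Proof.* (U) Let `v ∉ Z`, `up v ∈ Z`, `p = rep v`, so `cls (p+1) ∈ Z` (`p < L` by WD5): there is `q ∈ Z0` with `eqv (p+1) q`.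
Claim: there is `q' ∈ Z0`, `1 ≤ q'`, `q' - 1 ∉ Z0` with `v = cls (q' - 1)`. By `Conn.mem_of_closed` with the set
`C = {x | (1 ≤ x ∧ eqv p (x - 1)) ∨ ∃ q' ∈ Z0, 1 ≤ q' ∧ eqv p (q' - 1)}` one gets `q ∈ C`: for an edge `(i, o)` with `o > l`
the shifted edge `(i, o-1)` is again of offset `≥ l`; if `o = l` then both ends are in `Z0`. So in any case there is
`q' ∈ Z0`, `q' ≥ 1`, `eqv p (q' - 1)` (if `q ∈ C` by the first alternative take `q' = q`). And `q' - 1 ∉ Z0` since `cls (q'-1) = v ∉ Z`.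
(D) Let `v ∉ Z`, `dn v ∈ Z`: similarly `v = cls (q' + 1)` with `q' ∈ Z0`, `q' + 1 ∉ Z0`: use
`C = {x | eqv p (x + 1) ∨ ∃ q' ∈ Z0, eqv p (q' + 1)}`; an edge `(i, o)`, `l ≤ o < m i` shifts up; if `o = m i` both ends are in `S`.
Count: `Z0` is the union of `S` and of `≤ 2n + 4n` intervals (short bands: `2n` intervals `[cp s i 0, cp s i (m i)]`; long bands: `2n`
intervals `[cp s i 0, cp s i r]` and `2n` intervals `{cp s i (l-1), cp s i l}`), so there are at most `S.card + 6 n` points `q' ∈ Z0` with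
`q' - 1 ∉ Z0`, and at most `S.card + 6 n` with `q' + 1 ∉ Z0` (each is an element of `S` or the left (right) end of an interval). -/
def S_dBd : Prop := S_dShift → ∀ (α : Type) (X : Dat α),
  (univ.filter (fun v => v ∉ X.Z ∧ X.up v ∈ X.Z)).card ≤ X.S.card + 6 * X.n ∧
  (univ.filter (fun v => v ∉ X.Z ∧ X.dn v ∈ X.Z)).card ≤ X.S.card + 6 * X.n

/-- **WD10.** Sizes. *Proof.* The points `q < l` are not on any edge of offset `≥ l`, so their classes are singletons and
`q ↦ cls q` is injective on `q < l`. `Z.card ≤ Z0.card ≤ S.card + 2 n r + 2 n (r + 3)` (count the offsets). -/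
def S_dSize : Prop := ∀ (α : Type) (X : Dat α), X.l ≤ Fintype.card X.V ∧
  X.Z.card ≤ X.S.card + 2 * X.n * X.r + 2 * X.n * (X.r + 3)

/-- The pump condition for functions on cut points. -/
def Dat.IsPumpW {α : Type} (X : Dat α) (y : ℕ → ℕ) : Prop :=
  (∀ q ∈ X.Z0, y q = 0) ∧
  (∀ i o, X.l ≤ o → o ≤ X.m i → y (X.a i + o) = y (X.b i + o)) ∧
  ((∀ i o, X.tree i → X.r ≤ o → o < X.l → y (X.a i + o) = y (X.b i + o)) ∨
   ∃ i s o₁ o₂, X.tree i ∧ o₁ < o₂ ∧ X.r ≤ o₁ ∧ o₂ < X.l ∧
     y (X.cp s i o₁) = y (X.cp (!s) i o₁) + 1 ∧ y (X.cp (!s) i o₂) = y (X.cp s i o₂) + 1 ∧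
     (∀ t k, o₁ < k → k < o₂ → y (X.cp t i k) = 0) ∧
     (∀ k, o₁ < k → k ≤ o₂ → ¬ X.mark i k) ∧
     (∀ j o, X.tree j → X.r ≤ o → o < X.l → (j, o) ≠ (i, o₁) → (j, o) ≠ (i, o₂) →
        y (X.a j + o) = y (X.b j + o)))

/-- **WD11 (pump transfer).** Inflation along a pump preserves all bands.
*Proof.* In the second alternative let `w = [W (cp s i o₁), …, W (cp s i (o₂ - 1))]` (nonempty) and `u = w`; in the first
alternative `u = [W 0]`. Notation `I(p, t) = infl W u K y p t`; `I(p, t + t') = I(p, t) ++ I(p+t, t')`. If `W` and `y` agree on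
`[p, p+t)` and `[p', p'+t)` then `I(p,t) = I(p',t)`. Short bands (`m i < r`): `y = 0` on both sides. Long bands: `y = 0` at
offsets `≤ r`, `y` agrees at offsets `≥ l`; every long band is `tree` or `redu` (`c_cases`).
(T) tree bands `j`, `β ∈ [r, 2l-1]`, `x` with `β ≤ x ≤ m j`, `x ≥ l`, and not (`j = i` and `o₁ < β ≤ o₂`): `I(a j + β, x - β) =
I(b j + β, x - β)`. If no violation is in `[β, x)` this is clear. Otherwise `j = i`, `β ≤ o₁ < o₂ < l ≤ x`; splitting at `o₁` and `o₂`,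
with `A = y (cp (!s) i o₁)`, `B = y (cp s i o₂)`: side `s`: `P u^(K(A+1)) w u^(K B) Q`, side `!s`: `P u^(K A) w u^(K(B+1)) Q`, where
`P, Q` are common (the letters at `o₁, …, o₂-1` are `w`, no insertions strictly between), equal because `u^K w = w u^K` (`u = w`).
(R) Claim: for `j` long, `β ∈ [r, 2l-1]`, such that `β ≥ l`, or `j` is redundant and there is a redundant `i0` with
`∀ x < l, W (a j + β + x) = W (a i0 + r + x)`: `I(a j + β, 2l-1-β) = I(b j + β, 2l-1-β)`. Downward induction on `β`.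
`β ≥ l` is clear. Let `β < l`, `j` redundant, `t = 2l-1-β ≥ l`. `X.red j (2l-1)` (as `2l-1 < c j`, `2l - 1 ≤ m j`) connects `a j + 2l-1` and
`b j + 2l-1` by kept edges `(j', o')` with `o' ≥ 2l` or (`o' = 2l-1` and `c j' ≤ o'`, so `j'` is tree or... as `c j' ≤ 2l - 1 < 2l`,
`c_cases` gives `c j' ≤ r`, tree). Use `Conn.mem_of_closed` with
`C = {x | t ≤ x ∧ I(x-t, t) = I(a j + β, t) ∧ ∀ z < t, W (x - t + z) = W (a j + β + z)}`.
Let `e = (j', o')` be such an edge, `β' = o' - t ≥ β ≥ r`, and say `a j' + o' ∈ C` (or `b j' + o' ∈ C`). `j'` is long (`m j' ≥ o' ≥ 2l-1 ≥ r`).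
The `W`-windows `[a j' + β', +t)` and `[b j' + β', +t)` agree (`band`, `β' + t = o' ≤ m j'`). For `I`: if `β' ≥ l` all offsets are `≥ l`.
If `β' < l` and `j'` is tree: `W (a j' + β' + z) = W (a j + β + z) = W (a i0 + r + z)` for `z < l` shows that `β'` is a marker of `j'`, so
(T) applies with `x = o'`. If `β' < l` and `j'` is redundant then `o' ≥ c j' ≥ 2l`, so `β' > β`, and the induction hypothesis gives
`I(a j' + β', 2l-1-β') = I(b j' + β', 2l-1-β')`; the rest `[2l-1, o')` has offsets `≥ l`. So `b j' + 2l-1 ∈ C`.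
Finally for long `j`: `I(a j, m j) = I(a j, r) ++ I(a j + r, 2l-1-r) ++ I(a j + 2l-1, m j - (2l-1))` and the same for `b j`:
first parts equal (`y = 0`), third parts equal, middle parts equal by (T) (`β = r`; `r ≤ o₁` so `β = r` is not in `(o₁, o₂]`) or by (R) (`i0 = j`). -/
def S_pumpW : Prop := ∀ (α : Type) (X : Dat α) (y : ℕ → ℕ), X.IsPumpW y →
  ∃ u : List α, u ≠ [] ∧ ∀ (K : ℕ) (i : Fin X.n),
    infl X.W u K y (X.a i) (X.m i) = infl X.W u K y (X.b i) (X.m i)

/-- The shift forest of `X`. -/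
noncomputable def Dat.toSF {α : Type} (X : Dat α) (h1 : S_dForest) (h2 : S_dShift)
    (h3 : S_dAxioms) : SF X.V X.ι where
  r := X.r
  l := X.l
  pt := X.pt
  Z := X.Z
  up := X.up
  dn := X.dn
  Mk := X.Mk
  hrl := by have := X.r_lt; omega
  forest := h1 α X
  hr := (h3 h2 α X).1
  hl := (h3 h2 α X).2.1
  hup := (h3 h2 α X).2.2.1
  hdn := (h3 h2 α X).2.2.2.1
  dnup := (h3 h2 α X).2.2.2.2.1
  updn := (h3 h2 α X).2.2.2.2.2

/-- **WD12.** A pump on classes gives a pump on cut points: `y' q = y (cls q)` (for `q ≤ L`; all points in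
question are `≤ L`; for `q > L` put `y' q = y (cls q)` too, it does not matter).
`cls (a i + o) = cls (b i + o)` for `l ≤ o ≤ m i`. The nonzero vertex `v = cls (rep v)` has `rep v ≤ L`, and `rep v ≠ L` as `L ∈ S`,
`y = 0` on `Z`. Markers: `(⟨i,_⟩, k) ∈ Mk ↔ mark i k` for `k ∈ [r, l)`. -/
def S_pumpLift : Prop := ∀ (h1 : S_dForest) (h2 : S_dShift) (h3 : S_dAxioms) (α : Type) (X : Dat α)
  (y : X.V → ℕ), (X.toSF h1 h2 h3).IsPump y →
  ∃ y' : ℕ → ℕ, X.IsPumpW y' ∧ ∃ q, q < X.L ∧ y' q ≠ 0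

/-- **Main theorem on words with bands (MB).** -/
def S_MB : Prop := ∀ (n B N : ℕ), ∃ L0 : ℕ, ∀ (α : Type) (W : ℕ → α) (L : ℕ) (a b m : Fin n → ℕ)
  (S : Finset ℕ), L0 ≤ L → S.card ≤ B → 0 ∈ S → L ∈ S → (∀ i, a i ∈ S) → (∀ i, b i ∈ S) →
  (∀ i, a i + m i ∈ S) → (∀ i, b i + m i ∈ S) → (∀ q ∈ S, q ≤ L) →
  (∀ i k, k < m i → W (a i + k) = W (b i + k)) → NoPow W L N →
  ∃ (u : List α) (y : ℕ → ℕ), u ≠ [] ∧ (∀ q ∈ S, y q = 0) ∧ (∃ q, q < L ∧ y q ≠ 0) ∧
    ∀ K i, infl W u K y (a i) (m i) = infl W u K y (b i) (m i)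

end H724.WE
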